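import Pool.Agent.Lib.MP_cb27ba_nt.PG.All
import Pool.Agent.Lib.MP_cb27ba_nt.MB.All

/-!
# MP_cb27ba_nt, project PH: theorem A for Möbius families, with the gain of Burgess' method for the
families `(Φ, C, m)` where `C` is an arithmetic progression
-/

set_option autoImplicit false

namespace MPcb27.PH

open Finset Matrix
open scoped Pointwise
open MPcb27.TU MPcb27.TW MPcb27.LN MPcb27.MB MPcb27.PG

namespace EN2

open TAM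

variable {p : ℕ} [Fact p.Prime]

lemma gram_le (χ : MulChar (ZMod p) ℂ) (Φ : Finset (M2 p)) (hΦ : ∀ φ ∈ Φ, φ.det ≠ 0)
    (C B : Finset (ZMod p)) (S : Finset (M2 p × ZMod p × ZMod p))
    (hS : S = (Φ ×ˢ B ×ˢ B).filter fun q => q.1 1 0 * q.2.1 ≠ q.1 0 0 ∧
      q.1 1 0 * q.2.2 ≠ q.1 0 0) :
    ∑ b ∈ B, ∑ b' ∈ B, ‖∑ t ∈ (Φ ×ˢ C).filter (fun x => den x.1 x.2 ≠ 0),
      χ (mob t.1 t.2 - b) * (starRingEnd ℂ) (χ (mob t.1 t.2 - b'))‖ ≤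
        ∑ q ∈ S, KK χ C (-iv q.1 q.2.1, -iv q.1 q.2.2) + #Φ * (#B : ℝ) ^ 2 +
          2 * #Φ * #B * #C := by
  classical
  set g : M2 p × ZMod p × ZMod p → ZMod p × ZMod p :=
    fun q => (-iv q.1 q.2.1, -iv q.1 q.2.2) with hg
  -- the bad points
  have hbad : ∀ φ ∈ Φ, #(B.filter fun b => ¬ φ 1 0 * b ≠ φ 0 0) ≤ 1 := by
    intro φ hφ
    have hd := hΦ φ hφ
    rw [card_le_one]
    intro b hb b' hb'
    rw [mem_filter, not_not] at hb hb'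
    by_cases hc : φ 1 0 = 0
    · exfalso
      rw [Matrix.det_fin_two] at hd
      have h3 := hb.2
      rw [hc, zero_mul] at h3
      apply hd
      rw [← h3, hc]
      ring
    · exact mul_left_cancel₀ hc (hb.2.trans hb'.2.symm)
  have e0 : ∀ b b' : ZMod p, ∑ t ∈ (Φ ×ˢ C).filter (fun x => den x.1 x.2 ≠ 0),
      χ (mob t.1 t.2 - b) * (starRingEnd ℂ) (χ (mob t.1 t.2 - b')) =
      ∑ φ ∈ Φ, ∑ c ∈ C.filter (fun c => den φ c ≠ 0),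
        χ (mob φ c - b) * (starRingEnd ℂ) (χ (mob φ c - b')) := by
    intro b b'
    rw [sum_filter, sum_product]
    refine sum_congr rfl fun φ _ => ?_
    rw [sum_filter]
  have e1 : ∀ b b' : ZMod p, ∀ φ ∈ Φ, ‖∑ c ∈ C.filter (fun c => den φ c ≠ 0),
        χ (mob φ c - b) * (starRingEnd ℂ) (χ (mob φ c - b'))‖ ≤
        (if φ 1 0 * b ≠ φ 0 0 ∧ φ 1 0 * b' ≠ φ 0 0 then KK χ C (g (φ, b, b')) else 0) + 1 +
        (#C * (if ¬ φ 1 0 * b ≠ φ 0 0 then (1 : ℝ) else 0) +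
          #C * (if ¬ φ 1 0 * b' ≠ φ 0 0 then (1 : ℝ) else 0)) := by
    intro b b' φ hφ
    by_cases h2 : φ 1 0 * b ≠ φ 0 0 ∧ φ 1 0 * b' ≠ φ 0 0
    · rw [if_pos h2, if_neg (not_not.2 h2.1), if_neg (not_not.2 h2.2), mul_zero, add_zero,
        add_zero]
      exact inner χ (hΦ φ hφ) C h2.1 h2.2
    · rw [if_neg h2, zero_add]
      have h3 : ‖∑ c ∈ C.filter (fun c => den φ c ≠ 0),
          χ (mob φ c - b) * (starRingEnd ℂ) (χ (mob φ c - b'))‖ ≤ #C := by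
        calc ‖∑ c ∈ C.filter (fun c => den φ c ≠ 0),
              χ (mob φ c - b) * (starRingEnd ℂ) (χ (mob φ c - b'))‖ ≤
              ∑ _c ∈ C.filter (fun c => den φ c ≠ 0), (1 : ℝ) := by
              refine (norm_sum_le _ _).trans (sum_le_sum fun c _ => ?_)
              rw [norm_mul, Complex.norm_conj]
              exact mul_le_one₀ (norm_chi χ _) (norm_nonneg _) (norm_chi χ _)
          _ = #(C.filter (fun c => den φ c ≠ 0)) := by rw [sum_const, nsmul_eq_mul, mul_one]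
          _ ≤ #C := by exact_mod_cast card_le_card (filter_subset _ _)
      have hC0 : (0 : ℝ) ≤ #C := by positivity
      by_cases h4 : φ 1 0 * b ≠ φ 0 0
      · have h5 : ¬ φ 1 0 * b' ≠ φ 0 0 := fun h => h2 ⟨h4, h⟩
        rw [if_pos h5]
        split_ifs
        linarith
      · rw [if_pos h4]
        split_ifs <;> linarith
  have e2 : ∑ b ∈ B, ∑ b' ∈ B, ‖∑ t ∈ (Φ ×ˢ C).filter (fun x => den x.1 x.2 ≠ 0),
      χ (mob t.1 t.2 - b) * (starRingEnd ℂ) (χ (mob t.1 t.2 - b'))‖ ≤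
      ∑ b ∈ B, ∑ b' ∈ B, ∑ φ ∈ Φ,
        ((if φ 1 0 * b ≠ φ 0 0 ∧ φ 1 0 * b' ≠ φ 0 0 then KK χ C (g (φ, b, b')) else 0) + 1 +
        (#C * (if ¬ φ 1 0 * b ≠ φ 0 0 then (1 : ℝ) else 0) +
          #C * (if ¬ φ 1 0 * b' ≠ φ 0 0 then (1 : ℝ) else 0))) := by
    refine sum_le_sum fun b _ => sum_le_sum fun b' _ => ?_
    rw [e0]
    exact (norm_sum_le _ _).trans (sum_le_sum fun φ hφ => e1 b b' φ hφ)
  refine e2.trans ?_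
  have e3 : ∑ b ∈ B, ∑ b' ∈ B, ∑ φ ∈ Φ,
        ((if φ 1 0 * b ≠ φ 0 0 ∧ φ 1 0 * b' ≠ φ 0 0 then KK χ C (g (φ, b, b')) else 0) + 1 +
        (#C * (if ¬ φ 1 0 * b ≠ φ 0 0 then (1 : ℝ) else 0) +
          #C * (if ¬ φ 1 0 * b' ≠ φ 0 0 then (1 : ℝ) else 0))) =
      ∑ φ ∈ Φ, (∑ b ∈ B, ∑ b' ∈ B,
        (if φ 1 0 * b ≠ φ 0 0 ∧ φ 1 0 * b' ≠ φ 0 0 then KK χ C (g (φ, b, b')) else 0) +
        (#B : ℝ) ^ 2 + (#C * (#B * #(B.filter fun b => ¬ φ 1 0 * b ≠ φ 0 0)) +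
        #C * (#B * #(B.filter fun b => ¬ φ 1 0 * b ≠ φ 0 0)))) := by
    have e4 : ∑ b ∈ B, ∑ b' ∈ B, ∑ φ ∈ Φ,
        ((if φ 1 0 * b ≠ φ 0 0 ∧ φ 1 0 * b' ≠ φ 0 0 then KK χ C (g (φ, b, b')) else 0) + 1 +
        (#C * (if ¬ φ 1 0 * b ≠ φ 0 0 then (1 : ℝ) else 0) +
          #C * (if ¬ φ 1 0 * b' ≠ φ 0 0 then (1 : ℝ) else 0))) =
        ∑ φ ∈ Φ, ∑ b ∈ B, ∑ b' ∈ B,
        ((if φ 1 0 * b ≠ φ 0 0 ∧ φ 1 0 * b' ≠ φ 0 0 then KK χ C (g (φ, b, b')) else 0) + 1 +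
        (#C * (if ¬ φ 1 0 * b ≠ φ 0 0 then (1 : ℝ) else 0) +
          #C * (if ¬ φ 1 0 * b' ≠ φ 0 0 then (1 : ℝ) else 0))) := by
      rw [sum_congr rfl fun b (_ : b ∈ B) => sum_comm (s := B) (t := Φ)]
      exact sum_comm
    rw [e4]
    refine sum_congr rfl fun φ _ => ?_
    have e5 : ∑ b' ∈ B, (if ¬ φ 1 0 * b' ≠ φ 0 0 then (1 : ℝ) else 0) =
        #(B.filter fun b => ¬ φ 1 0 * b ≠ φ 0 0) := by
      rw [← sum_filter, sum_const, nsmul_eq_mul, mul_one]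
    simp only [sum_add_distrib, ← mul_sum, sum_const, nsmul_eq_mul, e5, mul_one]
    ring
  rw [e3, sum_add_distrib, sum_add_distrib, sum_const, nsmul_eq_mul]
  have e6 : ∑ φ ∈ Φ, ∑ b ∈ B, ∑ b' ∈ B,
      (if φ 1 0 * b ≠ φ 0 0 ∧ φ 1 0 * b' ≠ φ 0 0 then KK χ C (g (φ, b, b')) else 0) =
      ∑ q ∈ S, KK χ C (g q) := by
    rw [hS, sum_filter, sum_product]
    refine sum_congr rfl fun φ _ => ?_
    rw [sum_product]
  rw [e6]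
  have e7 : ∑ φ ∈ Φ, ((#C : ℝ) * (#B * #(B.filter fun b => ¬ φ 1 0 * b ≠ φ 0 0)) +
        #C * (#B * #(B.filter fun b => ¬ φ 1 0 * b ≠ φ 0 0))) ≤
      ∑ _φ ∈ Φ, (2 * #B * #C : ℝ) := by
    refine sum_le_sum fun φ hφ => ?_
    have h2 : (#(B.filter fun b => ¬ φ 1 0 * b ≠ φ 0 0) : ℝ) ≤ 1 := by
      exact_mod_cast hbad φ hφ
    have h3 : (0 : ℝ) ≤ #C * #B := by positivity
    nlinarith [mul_le_mul_of_nonneg_left h2 h3]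
  rw [sum_const, nsmul_eq_mul] at e7
  linarith

/-- the inner sum over a progression -/
lemma kk_ap (χ : MulChar (ZMod p) ℂ) {g : ZMod p} (hg : g ≠ 0) (c₀ : ZMod p) (n : ℕ) (hn : n ≤ p)
    (x y : ZMod p) :
    KK χ (ap c₀ g n) (-x, -y) ≤ ‖∑ k ∈ range n, χ ((c₀ - x) / g + (k : ZMod p)) *
      (starRingEnd ℂ) (χ ((c₀ - y) / g + (k : ZMod p)))‖ := by
  have hinj : Set.InjOn (fun k : ℕ => c₀ + (k : ZMod p) * g) (range n : Set ℕ) := by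
    intro a ha b hb hab
    simp only [coe_range, Set.mem_Iio] at ha hb
    have h2 : (a : ZMod p) = b := mul_right_cancel₀ hg (add_left_cancel hab)
    rw [ZMod.natCast_eq_natCast_iff'] at h2
    rwa [Nat.mod_eq_of_lt (by omega), Nat.mod_eq_of_lt (by omega)] at h2
  have h2 : ∑ c ∈ ap c₀ g n, χ (-x + c) * (starRingEnd ℂ) (χ (-y + c)) =
      (χ g * (starRingEnd ℂ) (χ g)) * ∑ k ∈ range n, χ ((c₀ - x) / g + (k : ZMod p)) *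
      (starRingEnd ℂ) (χ ((c₀ - y) / g + (k : ZMod p))) := by
    rw [ap, sum_image hinj, mul_sum]
    refine sum_congr rfl fun k _ => ?_
    have e : ∀ w : ZMod p, -w + (c₀ + (k : ZMod p) * g) = g * ((c₀ - w) / g + k) := by
      intro w
      field_simp
      ring
    rw [e, e, map_mul, map_mul, map_mul]
    ring
  have h3 : ‖χ g‖ ≤ 1 := norm_chi χ _
  have h4 : ‖χ g‖ * ‖χ g‖ ≤ 1 := mul_le_one₀ h3 (norm_nonneg _) h3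
  unfold KK
  dsimp only
  rw [h2, norm_mul, norm_mul, Complex.norm_conj]
  exact mul_le_of_le_one_left (norm_nonneg _) h4

/-- the first coordinates of the family of pairs -/
def zz (c₀ g : ZMod p) (q : M2 p × ZMod p × ZMod p) : ZMod p := (c₀ - iv q.1 q.2.1) / g

/-- the second coordinates of the family of pairs -/
def zz' (c₀ g : ZMod p) (q : M2 p × ZMod p × ZMod p) : ZMod p := (c₀ - iv q.1 q.2.2) / g

lemma e0p_le {g : ZMod p} (hg : g ≠ 0) (c₀ : ZMod p) (Φ : Finset (M2 p))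
    (hΦ : ∀ φ ∈ Φ, φ.det ≠ 0) (B : Finset (ZMod p)) (S : Finset (M2 p × ZMod p × ZMod p))
    (hS : S = (Φ ×ˢ B ×ˢ B).filter fun q => q.1 1 0 * q.2.1 ≠ q.1 0 0 ∧
      q.1 1 0 * q.2.2 ≠ q.1 0 0) :
    E0P S (zz c₀ g) (zz' c₀ g) ≤ NAM Φ B := by
  refine le_trans (card_le_card ?_) (coinc Φ hΦ B S hS)
  intro q hq
  rw [mem_filter] at hq ⊢
  obtain ⟨h1, h2, h3⟩ := hq
  refine ⟨h1, ?_⟩
  simp only [zz, zz', div_left_inj' hg] at h2 h3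
  rw [Prod.mk.injEq]
  exact ⟨by linear_combination h2, by linear_combination h3⟩

lemma dp_le {g : ZMod p} (hg : g ≠ 0) (c₀ : ZMod p) (Φ : Finset (M2 p))
    (hΦ : ∀ φ ∈ Φ, φ.det ≠ 0) (B : Finset (ZMod p)) (S : Finset (M2 p × ZMod p × ZMod p))
    (hS : S = (Φ ×ˢ B ×ˢ B).filter fun q => q.1 1 0 * q.2.1 ≠ q.1 0 0 ∧
      q.1 1 0 * q.2.2 ≠ q.1 0 0) :
    DP S (zz c₀ g) (zz' c₀ g) ≤ #Φ ^ 2 * #B ^ 3 := by
  classical
  have h0 : #Φ ^ 2 * #B ^ 3 = #((Φ ×ˢ B ×ˢ B) ×ˢ (Φ ×ˢ B)) := by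
    rw [card_product, card_product, card_product, card_product]
    ring
  rw [DP, h0]
  refine card_le_card_of_injOn (fun q => (q.1, (q.2.1, q.2.2.1))) ?_ ?_
  · intro q hq
    rw [mem_coe, mem_filter, mem_product, hS, mem_filter, mem_filter, mem_product, mem_product,
      mem_product, mem_product] at hq
    rw [mem_coe, mem_product, mem_product, mem_product, mem_product]
    exact ⟨⟨hq.1.1.1.1, hq.1.1.1.2.1, hq.1.1.1.2.2⟩, hq.1.2.1.1, hq.1.2.1.2.1⟩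
  · rintro ⟨⟨φ, b, b'⟩, ψ, b₁, b₁'⟩ hq ⟨⟨φ2, b2, b2'⟩, ψ2, b3, b3'⟩ hq' h
    rw [mem_coe, mem_filter, mem_product, hS, mem_filter, mem_filter, mem_product, mem_product,
      mem_product, mem_product] at hq hq'
    obtain ⟨⟨⟨⟨q1, q2, q3⟩, q4, q5⟩, ⟨q6, q7, q8⟩, q9, q10⟩, hE⟩ := hq
    obtain ⟨⟨⟨⟨r1, r2, r3⟩, r4, r5⟩, ⟨r6, r7, r8⟩, r9, r10⟩, hE'⟩ := hq'
    dsimp only at q1 q2 q3 q4 q5 q6 q7 q8 q9 q10 r1 r2 r3 r4 r5 r6 r7 r8 r9 r10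
    simp only [Prod.mk.injEq] at h
    obtain ⟨⟨rfl, rfl, rfl⟩, rfl, rfl⟩ := h
    simp only [zz, zz'] at hE hE'
    rw [div_sub_div_same, div_sub_div_same, div_left_inj' hg] at hE hE'
    have k1 : iv ψ b₁' = iv ψ b3' := by linear_combination hE' - hE
    have k2 : b₁' = b3' := by
      rw [← (iv_spec (hΦ _ q6) q10).2, k1, (iv_spec (hΦ _ q6) r10).2]
    rw [k2]

lemma bad_le {φ : M2 p} (hd : φ.det ≠ 0) (B : Finset (ZMod p)) :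
    #(B.filter fun b => ¬ φ 1 0 * b ≠ φ 0 0) ≤ 1 := by
  rw [card_le_one]
  intro b hb b' hb'
  rw [mem_filter, not_not] at hb hb'
  by_cases hc : φ 1 0 = 0
  · exfalso
    rw [Matrix.det_fin_two] at hd
    have h3 := hb.2
    rw [hc, zero_mul] at h3
    apply hd
    rw [← h3, hc]
    ring
  · exact mul_left_cancel₀ hc (hb.2.trans hb'.2.symm)

lemma card_S (Φ : Finset (M2 p)) (hΦ : ∀ φ ∈ Φ, φ.det ≠ 0) (B : Finset (ZMod p)) (hB : 2 ≤ #B)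
    (S : Finset (M2 p × ZMod p × ZMod p))
    (hS : S = (Φ ×ˢ B ×ˢ B).filter fun q => q.1 1 0 * q.2.1 ≠ q.1 0 0 ∧
      q.1 1 0 * q.2.2 ≠ q.1 0 0) :
    (#Φ : ℝ) * (#B : ℝ) ^ 2 ≤ 4 * #S ∧ (#S : ℝ) ≤ #Φ * (#B : ℝ) ^ 2 := by
  classical
  have h1 : #S = ∑ φ ∈ Φ, #(B.filter fun b => φ 1 0 * b ≠ φ 0 0) ^ 2 := by
    have e : S = (Φ.sigma fun φ => (B.filter fun b => φ 1 0 * b ≠ φ 0 0) ×ˢ
        (B.filter fun b => φ 1 0 * b ≠ φ 0 0)).image (fun x => (x.1, x.2)) := by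
      ext ⟨φ, b, b'⟩
      rw [hS]
      simp only [mem_filter, mem_product, mem_image, mem_sigma, Sigma.exists, Prod.mk.injEq]
      constructor
      · rintro ⟨⟨h1, h2, h3⟩, h4, h5⟩
        exact ⟨φ, (b, b'), ⟨h1, ⟨h2, h4⟩, h3, h5⟩, rfl, rfl⟩
      · rintro ⟨ψ, x, ⟨h1, ⟨h2, h4⟩, h3, h5⟩, rfl, h6⟩
        rw [h6] at h2 h3 h4 h5
        exact ⟨⟨h1, h2, h3⟩, h4, h5⟩
    rw [e, card_image_of_injective, card_sigma]
    · refine sum_congr rfl fun φ _ => ?_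
      rw [card_product, pow_two]
    · rintro ⟨φ, x⟩ ⟨ψ, y⟩ h
      simp only [Prod.mk.injEq] at h
      obtain ⟨rfl, rfl⟩ := h
      rfl
  have h2 : ∀ φ ∈ Φ, #B ≤ #(B.filter fun b => φ 1 0 * b ≠ φ 0 0) + 1 := by
    intro φ hφ
    have h3 := card_filter_add_card_filter_not (s := B) (fun b => φ 1 0 * b ≠ φ 0 0)
    have h4 := bad_le (hΦ φ hφ) B
    omega
  constructor
  · rw [h1]
    push_cast
    rw [mul_sum]
    calc (#Φ : ℝ) * (#B : ℝ) ^ 2 = ∑ _φ ∈ Φ, (#B : ℝ) ^ 2 := by rw [sum_const, nsmul_eq_mul]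
      _ ≤ _ := by
        refine sum_le_sum fun φ hφ => ?_
        have h3 : #B ≤ 2 * #(B.filter fun b => φ 1 0 * b ≠ φ 0 0) := by
          have := h2 φ hφ
          omega
        have h4 : (#B : ℝ) ≤ 2 * #(B.filter fun b => φ 1 0 * b ≠ φ 0 0) := by exact_mod_cast h3
        calc (#B : ℝ) ^ 2 ≤ (2 * #(B.filter fun b => φ 1 0 * b ≠ φ 0 0) : ℝ) ^ 2 :=
              pow_le_pow_left₀ (by positivity) h4 2
          _ = _ := by ring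
  · have h3 : #S ≤ #(Φ ×ˢ B ×ˢ B) := by
      rw [hS]
      exact card_le_card (filter_subset _ _)
    rw [card_product, card_product] at h3
    calc (#S : ℝ) ≤ ((#Φ * (#B * #B) : ℕ) : ℝ) := by exact_mod_cast h3
      _ = _ := by push_cast; ring

theorem big (C c : ℝ) (hc : 0 < c) : ∃ P : ℕ, ∀ p : ℕ, P ≤ p → C ≤ (p : ℝ) ^ c :=
  MB.big C c hc

/-- one piece, `C` a progression -/
theorem one (hF : SpecFIN0P) {δ : ℝ} (hδ : 0 < δ) :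
    ∃ τ : ℝ, 0 < τ ∧ ∃ P : ℕ, ∀ (p : ℕ) [Fact p.Prime], P ≤ p →
    ∀ (Φ : Finset (M2 p)) (B C : Finset (ZMod p)) (m : ℕ), (∀ φ ∈ Φ, φ.det ≠ 0) →
      (p : ℝ) ^ δ ≤ #B → (p : ℝ) ^ δ ≤ #C → (#C : ℝ) ≤ (p : ℝ) ^ (1 / 2 - δ) →
      (∃ (c₀ g : ZMod p) (n : ℕ), C = ap c₀ g n) → 1 ≤ m →
      (p : ℝ) ^ (1 + δ) * NAM Φ B ≤ #C * ((#Φ : ℝ) ^ 2 * (#B : ℝ) ^ 4) →
      ∀ A : Finset (ZMod p),
        (∀ a ∈ A, m ≤ #((Φ ×ˢ C).filter fun x => den x.1 x.2 ≠ 0 ∧ mob x.1 x.2 = a)) →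
        ∀ χ : MulChar (ZMod p) ℂ, χ ≠ 1 →
          NB χ A B ((p : ℝ) ^ (-τ) * Real.sqrt (((#Φ : ℝ) * #C / m) * #B)) := by
  classical
  obtain ⟨ε, hε⟩ : ∃ ε : ℝ, ε = min δ (1 / 4) / 2 := ⟨_, rfl⟩
  have hε0 : 0 < ε := by rw [hε]; exact div_pos (lt_min hδ (by norm_num)) (by norm_num)
  have hε1 : ε ≤ δ / 2 := by
    rw [hε]; exact div_le_div_of_nonneg_right (min_le_left _ _) (by norm_num)
  have hε2 : ε ≤ 1 / 8 := by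
    rw [hε]
    have := min_le_right δ (1 / 4)
    linarith
  obtain ⟨τ₀, hτ₀, P₁, hP₁⟩ := hF ε hε0 (by linarith)
  obtain ⟨κ, hκ⟩ : ∃ κ : ℝ, κ = min τ₀ δ := ⟨_, rfl⟩
  have hκ0 : 0 < κ := by rw [hκ]; exact lt_min hτ₀ hδ
  obtain ⟨P₂, hP₂⟩ := big 16 (δ / 2) (by positivity)
  obtain ⟨P₃, hP₃⟩ := big 4 (κ / 2) (by positivity)
  refine ⟨κ / 8, by positivity, max P₁ (max P₂ P₃), ?_⟩
  intro p _ hp Φ B C m hΦ hB hC1 hC2 hap hm hE A hA χ hχ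
  have hpp : p.Prime := Fact.out
  have hp1 : (1 : ℝ) < p := by exact_mod_cast hpp.one_lt
  have hp0 : (0 : ℝ) < p := by linarith
  have h16 : (16 : ℝ) ≤ (p : ℝ) ^ (δ / 2) :=
    hP₂ p (((le_max_left _ _).trans (le_max_right _ _)).trans hp)
  have h4 : (4 : ℝ) ≤ (p : ℝ) ^ (κ / 2) :=
    hP₃ p (((le_max_right _ _).trans (le_max_right _ _)).trans hp)
  have mono : ∀ {x y : ℝ}, x ≤ y → (p : ℝ) ^ x ≤ (p : ℝ) ^ y := fun h =>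
    Real.rpow_le_rpow_of_exponent_le hp1.le h
  obtain ⟨c₀, g, n, rfl⟩ := hap
  -- `g ≠ 0`, `#C = n`
  have hLcard : 1 < #(ap c₀ g n) := by
    have h1 : (16 : ℝ) ≤ #(ap c₀ g n) := h16.trans ((mono (by linarith)).trans hC1)
    have : 16 ≤ #(ap c₀ g n) := by exact_mod_cast h1
    omega
  have hg : g ≠ 0 := by
    intro h0
    have : #(ap c₀ g n) ≤ 1 := by
      rw [card_le_one]
      intro a ha b hb
      simp only [ap, mem_image, mem_range, h0, mul_zero, add_zero] at ha hb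
      obtain ⟨_, _, rfl⟩ := ha
      obtain ⟨_, _, rfl⟩ := hb
      rfl
    omega
  have hcap : ∀ k : ℕ, k ≤ p → #(ap c₀ g k) = k := by
    intro k hk
    rw [ap, card_image_of_injOn, card_range]
    intro a ha b hb hab
    simp only [coe_range, Set.mem_Iio] at ha hb
    have h2 : (a : ZMod p) = b := mul_right_cancel₀ hg (add_left_cancel hab)
    rw [ZMod.natCast_eq_natCast_iff'] at h2
    rwa [Nat.mod_eq_of_lt (by omega), Nat.mod_eq_of_lt (by omega)] at h2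
  have hsqrt : (p : ℝ) ^ (1 / 2 - δ) < p := by
    calc (p : ℝ) ^ (1 / 2 - δ) < (p : ℝ) ^ (1 : ℝ) :=
          Real.rpow_lt_rpow_of_exponent_lt hp1 (by linarith)
      _ = p := Real.rpow_one _
  have hnp : n < p := by
    by_contra h
    push Not at h
    have h1 : #(ap c₀ g p) ≤ #(ap c₀ g n) :=
      card_le_card (image_subset_image (range_subset_range.2 h))
    rw [hcap p le_rfl] at h1
    have h2 : (p : ℝ) ≤ #(ap c₀ g n) := by exact_mod_cast h1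
    linarith
  have hCn : #(ap c₀ g n) = n := hcap n hnp.le
  rw [hCn] at hC1 hC2 hE
  rw [hCn]
  obtain ⟨S, hS⟩ : ∃ S : Finset (M2 p × ZMod p × ZMod p), S = (Φ ×ˢ B ×ˢ B).filter fun q =>
    q.1 1 0 * q.2.1 ≠ q.1 0 0 ∧ q.1 1 0 * q.2.2 ≠ q.1 0 0 := ⟨_, rfl⟩
  have hB2 : 2 ≤ #B := by
    have h1 : (16 : ℝ) ≤ #B := h16.trans ((mono (by linarith)).trans hB)
    have : 16 ≤ #B := by exact_mod_cast h1
    omega
  obtain ⟨hS1, hS2⟩ := card_S Φ hΦ B hB2 S hS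
  have hsq : ((#Φ : ℝ) * (#B : ℝ) ^ 2) ^ 2 ≤ 16 * (#S : ℝ) ^ 2 := by
    calc ((#Φ : ℝ) * (#B : ℝ) ^ 2) ^ 2 ≤ (4 * (#S : ℝ)) ^ 2 :=
          pow_le_pow_left₀ (by positivity) hS1 2
      _ = _ := by ring
  have hspl : (p : ℝ) ^ (1 + ε) * (p : ℝ) ^ (δ / 2) ≤ (p : ℝ) ^ (1 + δ) := by
    rw [← Real.rpow_add hp0]
    exact mono (by linarith)
  have hspl2 : (p : ℝ) ^ ε * (p : ℝ) ^ (δ / 2) ≤ (p : ℝ) ^ δ := by
    rw [← Real.rpow_add hp0]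
    exact mono (by linarith)
  have hc1 : (p : ℝ) ^ (1 + ε) * E0P S (zz c₀ g) (zz' c₀ g) ≤ (#S : ℝ) ^ 2 * n := by
    have h1 : (E0P S (zz c₀ g) (zz' c₀ g) : ℝ) ≤ NAM Φ B := by
      exact_mod_cast e0p_le hg c₀ Φ hΦ B S hS
    have h2 : 16 * ((p : ℝ) ^ (1 + ε) * E0P S (zz c₀ g) (zz' c₀ g)) ≤
        16 * ((#S : ℝ) ^ 2 * n) := by
      calc 16 * ((p : ℝ) ^ (1 + ε) * E0P S (zz c₀ g) (zz' c₀ g)) ≤
            (p : ℝ) ^ (δ / 2) * ((p : ℝ) ^ (1 + ε) * NAM Φ B) := by gcongr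
        _ = ((p : ℝ) ^ (1 + ε) * (p : ℝ) ^ (δ / 2)) * NAM Φ B := by ring
        _ ≤ (p : ℝ) ^ (1 + δ) * NAM Φ B := by gcongr
        _ ≤ n * ((#Φ : ℝ) ^ 2 * (#B : ℝ) ^ 4) := hE
        _ = n * ((#Φ : ℝ) * (#B : ℝ) ^ 2) ^ 2 := by ring
        _ ≤ n * (16 * (#S : ℝ) ^ 2) := by gcongr
        _ = _ := by ring
    linarith
  have hc2 : (p : ℝ) ^ ε * DP S (zz c₀ g) (zz' c₀ g) ≤ (#S : ℝ) ^ 2 := by
    have h1 : (DP S (zz c₀ g) (zz' c₀ g) : ℝ) ≤ (#Φ : ℝ) ^ 2 * (#B : ℝ) ^ 3 := by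
      exact_mod_cast dp_le hg c₀ Φ hΦ B S hS
    have h2 : 16 * ((p : ℝ) ^ ε * DP S (zz c₀ g) (zz' c₀ g)) ≤ 16 * (#S : ℝ) ^ 2 := by
      calc 16 * ((p : ℝ) ^ ε * DP S (zz c₀ g) (zz' c₀ g)) ≤
            (p : ℝ) ^ (δ / 2) * ((p : ℝ) ^ ε * ((#Φ : ℝ) ^ 2 * (#B : ℝ) ^ 3)) := by gcongr
        _ = ((p : ℝ) ^ ε * (p : ℝ) ^ (δ / 2)) * ((#Φ : ℝ) ^ 2 * (#B : ℝ) ^ 3) := by ring
        _ ≤ #B * ((#Φ : ℝ) ^ 2 * (#B : ℝ) ^ 3) := by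
            refine mul_le_mul_of_nonneg_right (hspl2.trans hB) (by positivity)
        _ = ((#Φ : ℝ) * (#B : ℝ) ^ 2) ^ 2 := by ring
        _ ≤ _ := hsq
    linarith
  have hn1 : (p : ℝ) ^ ε ≤ n := (mono (by linarith)).trans hC1
  have hn2 : (n : ℝ) ≤ (p : ℝ) ^ (1 / 2 - ε / 8) := hC2.trans (mono (by linarith))
  have hfin := hP₁ p ((le_max_left _ _).trans hp) n hn1 hn2 _ S (zz c₀ g) (zz' c₀ g) hc1 hc2 χ hχ
  have hsum : ∑ q ∈ S, KK χ (ap c₀ g n) (-iv q.1 q.2.1, -iv q.1 q.2.2) ≤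
      (p : ℝ) ^ (-τ₀) * #S * n := by
    refine le_trans (sum_le_sum fun q _ => ?_) hfin
    exact kk_ap χ hg c₀ n hnp.le _ _
  have hG0 := gram_le χ Φ hΦ (ap c₀ g n) B S hS
  rw [hCn] at hG0
  have e1 : ((p : ℝ) ^ (-(κ / 8))) ^ 4 = (p : ℝ) ^ (-(κ / 2)) := by
    rw [← Real.rpow_natCast, ← Real.rpow_mul hp0.le]
    congr 1
    push_cast
    ring
  have hκ1 : (p : ℝ) ^ (-τ₀) ≤ (p : ℝ) ^ (-κ) := mono (by
    have := min_le_left τ₀ δ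
    rw [← hκ] at this
    linarith)
  have hκ2 : (p : ℝ) ^ (-δ) ≤ (p : ℝ) ^ (-κ) := mono (by
    have := min_le_right τ₀ δ
    rw [← hκ] at this
    linarith)
  have hinv : ∀ x : ℝ, (p : ℝ) ^ δ ≤ x → 1 ≤ (p : ℝ) ^ (-κ) * x := by
    intro x hx
    have e1 : (p : ℝ) ^ (-δ) * (p : ℝ) ^ δ = 1 := by
      rw [← Real.rpow_add hp0]
      simp
    calc (1 : ℝ) = (p : ℝ) ^ (-δ) * (p : ℝ) ^ δ := e1.symm
      _ ≤ (p : ℝ) ^ (-κ) * x := mul_le_mul hκ2 hx (by positivity) (by positivity)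
  have hG : ∑ b ∈ B, ∑ b' ∈ B, ‖∑ t ∈ (Φ ×ˢ ap c₀ g n).filter (fun x => den x.1 x.2 ≠ 0),
      χ (mob t.1 t.2 - b) * (starRingEnd ℂ) (χ (mob t.1 t.2 - b'))‖ ≤
      ((p : ℝ) ^ (-(κ / 8))) ^ 4 * (#Φ * #(ap c₀ g n)) * (#B : ℝ) ^ 2 := by
    rw [e1, hCn]
    refine hG0.trans ?_
    have a0 : ∑ q ∈ S, KK χ (ap c₀ g n) (-iv q.1 q.2.1, -iv q.1 q.2.2) ≤
        (p : ℝ) ^ (-κ) * (#Φ * n * (#B : ℝ) ^ 2) := by
      refine hsum.trans ?_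
      calc (p : ℝ) ^ (-τ₀) * #S * n ≤ (p : ℝ) ^ (-κ) * (#Φ * (#B : ℝ) ^ 2) * n := by gcongr
        _ = _ := by ring
    have a1 : (#Φ : ℝ) * (#B : ℝ) ^ 2 ≤ (p : ℝ) ^ (-κ) * (#Φ * n * (#B : ℝ) ^ 2) := by
      have := mul_le_mul_of_nonneg_left (hinv n hC1) (by positivity : (0 : ℝ) ≤ #Φ * (#B : ℝ) ^ 2)
      calc (#Φ : ℝ) * (#B : ℝ) ^ 2 = #Φ * (#B : ℝ) ^ 2 * 1 := (mul_one _).symm
        _ ≤ #Φ * (#B : ℝ) ^ 2 * ((p : ℝ) ^ (-κ) * n) := this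
        _ = _ := by ring
    have a2 : 2 * (#Φ : ℝ) * #B * n ≤ 2 * ((p : ℝ) ^ (-κ) * (#Φ * n * (#B : ℝ) ^ 2)) := by
      have := mul_le_mul_of_nonneg_left (hinv #B hB) (by positivity : (0 : ℝ) ≤ 2 * #Φ * #B * n)
      calc 2 * (#Φ : ℝ) * #B * n = 2 * #Φ * #B * n * 1 := (mul_one _).symm
        _ ≤ 2 * #Φ * #B * n * ((p : ℝ) ^ (-κ) * #B) := this
        _ = _ := by ring
    have a3 : 4 * (p : ℝ) ^ (-κ) ≤ (p : ℝ) ^ (-(κ / 2)) := by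
      calc 4 * (p : ℝ) ^ (-κ) ≤ (p : ℝ) ^ (κ / 2) * (p : ℝ) ^ (-κ) := by gcongr
        _ = (p : ℝ) ^ (-(κ / 2)) := by
            rw [← Real.rpow_add hp0]
            congr 1
            ring
    have hV : (0 : ℝ) ≤ #Φ * n * (#B : ℝ) ^ 2 := by positivity
    calc ∑ q ∈ S, KK χ (ap c₀ g n) (-iv q.1 q.2.1, -iv q.1 q.2.2) + #Φ * (#B : ℝ) ^ 2 +
          2 * #Φ * #B * n ≤ (4 * (p : ℝ) ^ (-κ)) * (#Φ * n * (#B : ℝ) ^ 2) := by linarith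
      _ ≤ (p : ℝ) ^ (-(κ / 2)) * (#Φ * n * (#B : ℝ) ^ 2) := mul_le_mul_of_nonneg_right a3 hV
      _ = _ := by ring
  have hres := GRAMM.fin χ A B ((p : ℝ) ^ (-(κ / 8))) ((#Φ : ℝ) * #(ap c₀ g n) / m)
    (by positivity) fun β => gramAM_sq χ Φ (ap c₀ g n) B m _ hm hG A hA β
  rw [hCn] at hres
  exact hres

end EN2

/-- **THEOREM EN2** -/
theorem theoremEN2 (δ : ℝ) (hδ : 0 < δ) : ∃ τ : ℝ, 0 < τ ∧ ∃ P : ℕ, ∀ (p : ℕ) [Fact p.Prime],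
    P ≤ p → ∀ (B : Finset (ZMod p)) (F : Finset (Finset (M2 p) × Finset (ZMod p) × ℕ)),
      (p : ℝ) ^ δ ≤ #B →
      (∀ q ∈ F, (∀ φ ∈ q.1, φ.det ≠ 0) ∧ (p : ℝ) ^ δ ≤ #q.2.1 ∧ 1 ≤ q.2.2 ∧
        ∃ K : ℕ, (K = 1 ∨ (K = #q.2.1 ∧ (#q.2.1 : ℝ) ≤ (p : ℝ) ^ (1 / 2 - δ) ∧
          ∃ (c₀ g : ZMod p) (n : ℕ), q.2.1 = ap c₀ g n)) ∧
        (p : ℝ) ^ (1 + δ) * NAM q.1 B ≤ K * ((#q.1 : ℝ) ^ 2 * (#B : ℝ) ^ 4)) →
      ∀ A : Finset (ZMod p),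
        (∀ a ∈ A, ∃ q ∈ F, q.2.2 ≤ #((q.1 ×ˢ q.2.1).filter fun x =>
          den x.1 x.2 ≠ 0 ∧ mob x.1 x.2 = a)) →
        ∀ χ : MulChar (ZMod p) ℂ, χ ≠ 1 →
          NB χ A B ((p : ℝ) ^ (-τ) *
            Real.sqrt ((∑ q ∈ F, (#q.1 : ℝ) * #q.2.1 / q.2.2) * #B)) := by
  classical
  obtain ⟨τ₁, hτ₁, P₁, hP₁⟩ := finalAM TW.mom2 δ hδ
  obtain ⟨τ₂, hτ₂, P₂, hP₂⟩ := EN2.one (specFIN0P specSMP TG.specPR (specHOP TW.mom2)) hδ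
  refine ⟨min τ₁ τ₂, lt_min hτ₁ hτ₂, max P₁ P₂, ?_⟩
  intro p _ hp B F hB hF A hA χ hχ
  have hp1 : (1 : ℝ) ≤ p := by exact_mod_cast (Fact.out : p.Prime).one_lt.le
  have e1 : (p : ℝ) ^ (-τ₁) ≤ (p : ℝ) ^ (-(min τ₁ τ₂)) :=
    Real.rpow_le_rpow_of_exponent_le hp1 (neg_le_neg (min_le_left _ _))
  have e2 : (p : ℝ) ^ (-τ₂) ≤ (p : ℝ) ^ (-(min τ₁ τ₂)) :=
    Real.rpow_le_rpow_of_exponent_le hp1 (neg_le_neg (min_le_right _ _))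
  have hU := specUNI p χ (Finset (M2 p) × Finset (ZMod p) × ℕ) Unit F {()}
    (fun q => A.filter fun a => q.2.2 ≤ #((q.1 ×ˢ q.2.1).filter fun x =>
      den x.1 x.2 ≠ 0 ∧ mob x.1 x.2 = a))
    (fun _ => B) (fun q => (#q.1 : ℝ) * #q.2.1 / q.2.2) (fun _ => (#B : ℝ))
    ((p : ℝ) ^ (-(min τ₁ τ₂))) (by positivity) (fun _ _ => by positivity)
    (fun _ _ => Nat.cast_nonneg _) ?_ A B ?_ (fun b hb => ⟨(), mem_singleton_self _, hb⟩)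
  · rw [sum_singleton] at hU
    exact hU
  · intro q hq _ _
    obtain ⟨h1, h2, h3, K, hK, hE⟩ := hF q hq
    rcases hK with hK | ⟨hK, hK2, hK3⟩
    · have h := hP₁ p ((le_max_left _ _).trans hp) B {q} hB (by
        intro q' hq'
        rw [mem_singleton] at hq'
        subst hq'
        refine ⟨h1, h2, h3, ?_⟩
        rw [hK, Nat.cast_one, one_mul] at hE
        exact hE) (A.filter fun a => q.2.2 ≤ #((q.1 ×ˢ q.2.1).filter fun x =>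
          den x.1 x.2 ≠ 0 ∧ mob x.1 x.2 = a)) (by
        intro a ha
        exact ⟨q, mem_singleton_self _, (mem_filter.1 ha).2⟩) χ hχ
      rw [sum_singleton] at h
      exact SP.FINSP.nb_mono χ _ B (mul_le_mul_of_nonneg_right e1 (Real.sqrt_nonneg _)) h
    · have h := hP₂ p ((le_max_right _ _).trans hp) q.1 B q.2.1 q.2.2 h1 hB h2 hK2 hK3 h3 (by
        rw [hK] at hE
        exact hE) (A.filter fun a => q.2.2 ≤ #((q.1 ×ˢ q.2.1).filter fun x =>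
          den x.1 x.2 ≠ 0 ∧ mob x.1 x.2 = a)) (fun a ha => (mem_filter.1 ha).2) χ hχ
      exact SP.FINSP.nb_mono χ _ B (mul_le_mul_of_nonneg_right e2 (Real.sqrt_nonneg _)) h
  · intro a ha
    obtain ⟨q, hq, h⟩ := hA a ha
    exact ⟨q, hq, mem_filter.2 ⟨ha, h⟩⟩

end MPcb27.PH
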