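import Pool.Agent.Lib.MP_cb27ba_nt.PH.Spec
import Pool.Agent.Lib.MP_cb27ba_nt.PG.QDR
import Pool.Agent.Lib.MP_cb27ba_nt.PG.All

section
/-!
# MP_cb27ba_nt, project PH, module EXH (exhaustion)
-/
set_option autoImplicit false

namespace MPcb27.PH

open Finset
open MPcb27.TU

namespace EXH

/-- two disjoint blocks -/
theorem nb_un {p : ℕ} {χ : MulChar (ZMod p) ℂ} {A U V : Finset (ZMod p)} {x y : ℝ}
    (hUV : Disjoint U V) (h1 : NB χ A U x) (h2 : NB χ A V y) :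
    NB χ A (U ∪ V) (Real.sqrt (x ^ 2 + y ^ 2)) := by
  intro α β
  have e : ∑ a ∈ A, ∑ b ∈ U ∪ V, α a * β b * χ (a - b) =
      ∑ a ∈ A, ∑ b ∈ U, α a * β b * χ (a - b) + ∑ a ∈ A, ∑ b ∈ V, α a * β b * χ (a - b) := by
    rw [← sum_add_distrib]
    exact sum_congr rfl fun a _ => sum_union hUV
  rw [e, sum_union hUV]
  obtain ⟨s, hs⟩ : ∃ s, s = Real.sqrt (∑ a ∈ A, ‖α a‖ ^ 2) := ⟨_, rfl⟩
  obtain ⟨u, hu⟩ : ∃ u, u = Real.sqrt (∑ b ∈ U, ‖β b‖ ^ 2) := ⟨_, rfl⟩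
  obtain ⟨v, hv⟩ : ∃ v, v = Real.sqrt (∑ b ∈ V, ‖β b‖ ^ 2) := ⟨_, rfl⟩
  have hs0 : 0 ≤ s := hs ▸ Real.sqrt_nonneg _
  have hu2 : ∑ b ∈ U, ‖β b‖ ^ 2 = u ^ 2 := by
    rw [hu, Real.sq_sqrt (by positivity)]
  have hv2 : ∑ b ∈ V, ‖β b‖ ^ 2 = v ^ 2 := by
    rw [hv, Real.sq_sqrt (by positivity)]
  have h3 := h1 α β
  have h4 := h2 α β
  rw [← hs, ← hu] at h3
  rw [← hs, ← hv] at h4
  rw [← hs, hu2, hv2]
  have h5 : x * u + y * v ≤ Real.sqrt (x ^ 2 + y ^ 2) * Real.sqrt (u ^ 2 + v ^ 2) := by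
    rw [← Real.sqrt_mul (by positivity)]
    apply Real.le_sqrt_of_sq_le
    nlinarith [sq_nonneg (x * v - y * u)]
  calc _ ≤ x * (s * u) + y * (s * v) := (norm_add_le _ _).trans (add_le_add h3 h4)
    _ = s * (x * u + y * v) := by ring
    _ ≤ s * (Real.sqrt (x ^ 2 + y ^ 2) * Real.sqrt (u ^ 2 + v ^ 2)) :=
        mul_le_mul_of_nonneg_left h5 hs0
    _ = _ := by ring

theorem nb_le {p : ℕ} {χ : MulChar (ZMod p) ℂ} {X Y : Finset (ZMod p)} {M M' : ℝ}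
    (h : NB χ X Y M) (hM : M ≤ M') : NB χ X Y M' := fun α β =>
  (h α β).trans (mul_le_mul_of_nonneg_right hM (by positivity))

end EXH

open EXH

theorem specEXH : SpecEXH := by
  classical
  intro p _ χ A B S ρ ε hS hρ hε hB
  have hS0 : 0 ≤ S := (Nat.cast_nonneg _).trans hS
  obtain ⟨W, hW⟩ : ∃ W : Finset (Finset (ZMod p)),
      W = B.powerset.filter fun U => NB χ A U (Real.sqrt (ρ * S * #U)) := ⟨_, rfl⟩
  have hne : W.Nonempty := by
    refine ⟨∅, ?_⟩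
    rw [hW, mem_filter, mem_powerset]
    refine ⟨empty_subset B, fun α β => ?_⟩
    simp
  obtain ⟨U, hU, hmax⟩ := exists_max_image W (fun U => #U) hne
  rw [hW, mem_filter, mem_powerset] at hU
  obtain ⟨hUB, hU1⟩ := hU
  have hR : ((#(B \ U) : ℕ) : ℝ) ≤ ε * #B := by
    by_contra hlt
    push Not at hlt
    have hne2 : (B \ U).Nonempty := by
      rw [← card_pos]
      have h0 : (0 : ℝ) < #(B \ U) := lt_of_le_of_lt (by positivity) hlt
      exact_mod_cast h0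
    obtain ⟨V, hV1, hV2, hV3⟩ := hB (B \ U) sdiff_subset hne2 hlt.le
    have hd : Disjoint U V := (disjoint_sdiff.mono_right hV1)
    have h1 : U ∪ V ∈ W := by
      rw [hW, mem_filter, mem_powerset]
      refine ⟨union_subset hUB (hV1.trans sdiff_subset), ?_⟩
      have h2 := nb_un hd hU1 hV3
      rw [Real.sq_sqrt (by positivity), Real.sq_sqrt (by positivity)] at h2
      rw [card_union_of_disjoint hd]
      refine nb_le h2 (Real.sqrt_le_sqrt (le_of_eq ?_))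
      push_cast
      ring
    have h3 := hmax _ h1
    rw [card_union_of_disjoint hd] at h3
    have h4 := hV2.card_pos
    omega
  have h5 := nb_un (disjoint_sdiff (s := U) (t := B)) hU1
    (P1.nb_triv χ A (B \ U))
  rw [union_sdiff_of_subset hUB, Real.sq_sqrt (by positivity), Real.sq_sqrt (by positivity)] at h5
  refine nb_le h5 (Real.sqrt_le_sqrt ?_)
  have h6 : (#U : ℝ) ≤ #B := by exact_mod_cast card_le_card hUB
  have h7 : (#A : ℝ) * #(B \ U) ≤ S * (ε * #B) := mul_le_mul hS hR (by positivity) hS0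
  have h8 : ρ * S * #U ≤ ρ * S * #B := mul_le_mul_of_nonneg_left h6 (by positivity)
  calc ρ * S * #U + (#A : ℝ) * #(B \ U) ≤ ρ * S * #B + S * (ε * #B) := add_le_add h8 h7
    _ = _ := by ring

end MPcb27.PH
end

section
/-!
# MP_cb27ba_nt, project PH: the final theorem
-/
set_option autoImplicit false

namespace MPcb27.PH

open Finset Matrix
open scoped Pointwise
open MPcb27.TU MPcb27.TW MPcb27.LN MPcb27.MB MPcb27.PG MPcb27.PG.FINPG

namespace FINPH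

variable {p : ℕ} [Fact p.Prime]

lemma card_part (Ψ : Finset (M2 p)) (C A : Finset (ZMod p)) {x : ℝ} (hx : 0 < x)
    (hA : ∀ a ∈ A, x ≤ (rp Ψ C a : ℝ)) : (#A : ℝ) ≤ #Ψ * #C / x := by
  classical
  refine le_trans ?_ (card_XA Ψ C hx)
  exact_mod_cast card_le_card fun a ha => by
    rw [XA, mem_filter]
    exact ⟨mem_univ _, hA a ha⟩

omit [Fact p.Prime] in
lemma triv_part (χ : MulChar (ZMod p) ℂ) (A B : Finset (ZMod p)) {V : ℝ} (hA : (#A : ℝ) ≤ V) :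
    NB χ A B (Real.sqrt (V * #B)) :=
  SP.FINSP.nb_mono χ _ B (Real.sqrt_le_sqrt (mul_le_mul_of_nonneg_right hA (Nat.cast_nonneg _)))
    (P1.nb_triv χ A B)

lemma sqrt_form {τ V : ℝ} : (p : ℝ) ^ (-τ) * Real.sqrt V = Real.sqrt ((p : ℝ) ^ (-(2 * τ)) * V) := by
  have hp0 : (0 : ℝ) < p := by exact_mod_cast (Fact.out : p.Prime).pos
  rw [Real.sqrt_mul (show (0 : ℝ) ≤ (p : ℝ) ^ (-(2 * τ)) by positivity)]
  congr 1
  rw [show (p : ℝ) ^ (-(2 * τ)) = ((p : ℝ) ^ (-τ)) ^ 2 by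
    rw [← Real.rpow_natCast, ← Real.rpow_mul hp0.le]
    congr 1
    push_cast
    ring]
  exact (Real.sqrt_sq (by positivity)).symm

/-- the main step: one triple -/
lemma one_q {δ δ₁ τ τB τC : ℝ} (hδ₁ : 0 < δ₁) (h1 : 2 * δ₁ ≤ τB) (h2 : 32 * δ₁ ≤ δ)
    (ht1 : 2 * τ ≤ τC) (ht2 : 4 * τ ≤ τB) (ht3 : 64 * τ ≤ δ) (hp8 : 8 ≤ (p : ℝ) ^ (2 * τ))
    (χ : MulChar (ZMod p) ℂ) (Φ : Finset (M2 p)) (C A B : Finset (ZMod p)) {m : ℝ} (hm : 0 < m)
    (hA : ∀ a ∈ A, m ≤ (rp Φ C a : ℝ))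
    (Φ₀ : Finset (M2 p)) (Q : Finset (Finset (M2 p))) (hΦ₀ : Φ₀ ⊆ Φ)
    (hcov : ∀ φ ∈ Φ, φ ∈ Φ₀ ∨ ∃ Ψ ∈ Q, φ ∈ Ψ) (hQ : ((#Q : ℕ) : ℝ) ≤ (p : ℝ) ^ (2 * δ₁))
    (hsum : ∑ Ψ ∈ Q, #Ψ ≤ #Φ)
    (hC0 : ∀ x : ℝ, 0 < x → ∀ A' : Finset (ZMod p), (∀ a ∈ A', x ≤ (rp Φ₀ C a : ℝ)) →
      NB χ A' B (Real.sqrt ((p : ℝ) ^ (-(2 * τC)) * (#Φ₀ * #C / x) * #B)))
    (hB0 : ∀ Ψ ∈ Q, (p : ℝ) ^ (-(δ / 2)) * #Φ ≤ #Ψ → ∀ x : ℝ, 0 < x →
      ∀ A' : Finset (ZMod p), A' ⊆ A → (∀ a ∈ A', x ≤ (rp Ψ C a : ℝ)) →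
      (p : ℝ) ^ (-(δ / 8)) * (#Φ * #C / m) ≤ #A' →
      NB χ A' B (Real.sqrt ((p : ℝ) ^ (-(2 * τB)) * (#Ψ * #C / x) * #B))) :
    NB χ A B ((p : ℝ) ^ (-τ) * Real.sqrt ((#Φ * #C / m) * #B)) := by
  classical
  have hpr : p.Prime := Fact.out
  have hp1 : (1 : ℝ) ≤ p := by exact_mod_cast hpr.one_lt.le
  have hp0 : (0 : ℝ) < p := by linarith
  set S : ℝ := #Φ * #C / m with hS
  have hS0 : 0 ≤ S := by positivity
  set P2 : ℝ := (p : ℝ) ^ (-(δ / 2)) with hP2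
  have hP20 : 0 < P2 := by positivity
  set P3 : ℝ := (p : ℝ) ^ (-(δ / 8)) with hP3
  have hP30 : 0 < P3 := by positivity
  set PB : ℝ := (p : ℝ) ^ (-(2 * τB)) with hPB
  set PC : ℝ := (p : ℝ) ^ (-(2 * τC)) with hPC
  have hPB0 : 0 < PB := by positivity
  have hPC0 : 0 < PC := by positivity
  set n : ℝ := ((#Q : ℕ) : ℝ) with hn
  have hn0 : 0 ≤ n := by positivity
  set X : Option (Finset (M2 p)) → Finset (ZMod p) := fun o => match o with
    | none => A.filter fun a => m / 2 ≤ (rp Φ₀ C a : ℝ)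
    | some Ψ => A.filter fun a => m / (2 * n) ≤ (rp Ψ C a : ℝ) with hX
  set w : Option (Finset (M2 p)) → ℝ := fun o => match o with
    | none => PC * (2 * S)
    | some Ψ => PB * #Ψ * (2 * n * (#C / m)) + (P2 * (2 * n) + P3) * S with hw
  have hCm : (0 : ℝ) ≤ #C / m := by positivity
  have hcover : ∀ a ∈ A, ∃ i ∈ insertNone Q, a ∈ X i := by
    intro a ha
    have haA := hA a ha
    have hrep : rp Φ C a ≤ rp Φ₀ C a + ∑ Ψ ∈ Q, rp Ψ C a := by
      unfold rp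
      calc #((Φ ×ˢ C).filter fun x => den x.1 x.2 ≠ 0 ∧ mob x.1 x.2 = a) ≤
            #(((Φ₀ ×ˢ C).filter fun x => den x.1 x.2 ≠ 0 ∧ mob x.1 x.2 = a) ∪
              Q.biUnion fun Ψ => (Ψ ×ˢ C).filter fun x => den x.1 x.2 ≠ 0 ∧ mob x.1 x.2 = a) := by
            refine card_le_card fun x hx => ?_
            rw [mem_filter, mem_product] at hx
            rw [mem_union, mem_filter, mem_product, mem_biUnion]
            rcases hcov _ hx.1.1 with h | ⟨Ψ, hΨ, h⟩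
            · exact Or.inl ⟨⟨h, hx.1.2⟩, hx.2⟩
            · exact Or.inr ⟨Ψ, hΨ, by rw [mem_filter, mem_product]; exact ⟨⟨h, hx.1.2⟩, hx.2⟩⟩
        _ ≤ _ := (card_union_le _ _).trans (Nat.add_le_add_left card_biUnion_le _)
    by_cases h0 : m / 2 ≤ (rp Φ₀ C a : ℝ)
    · refine ⟨none, ?_, ?_⟩
      · simp
      · show a ∈ A.filter fun a => m / 2 ≤ (rp Φ₀ C a : ℝ)
        rw [mem_filter]
        exact ⟨ha, h0⟩
    · by_contra hne
      push Not at hne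
      have hlt : ∀ Ψ ∈ Q, (rp Ψ C a : ℝ) < m / (2 * n) := by
        intro Ψ hΨ
        have h3 := hne (some Ψ) (by simpa using hΨ)
        by_contra h4
        apply h3
        show a ∈ A.filter fun a => m / (2 * n) ≤ (rp Ψ C a : ℝ)
        rw [mem_filter]
        exact ⟨ha, not_lt.1 h4⟩
      have h5 : (rp Φ C a : ℝ) ≤ rp Φ₀ C a + ∑ Ψ ∈ Q, (rp Ψ C a : ℝ) := by exact_mod_cast hrep
      rcases Q.eq_empty_or_nonempty with hQe | hQe
      · rw [hQe, sum_empty, add_zero] at h5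
        linarith [not_le.1 h0]
      · have h6 : ∑ Ψ ∈ Q, (rp Ψ C a : ℝ) ≤ m / 2 := by
          have hnp : 0 < n := by rw [hn]; exact_mod_cast hQe.card_pos
          calc ∑ Ψ ∈ Q, (rp Ψ C a : ℝ) ≤ ∑ _Ψ ∈ Q, m / (2 * n) :=
                sum_le_sum fun Ψ hΨ => (hlt Ψ hΨ).le
            _ = n * (m / (2 * n)) := by rw [sum_const, nsmul_eq_mul]
            _ = m / 2 := by field_simp
        linarith [not_le.1 h0]
  have hw0 : ∀ i ∈ insertNone Q, 0 ≤ w i := by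
    intro i _
    rcases i with _ | Ψ
    · show 0 ≤ PC * (2 * S)
      positivity
    · show 0 ≤ PB * #Ψ * (2 * n * (#C / m)) + (P2 * (2 * n) + P3) * S
      positivity
  have hblock : ∀ i ∈ insertNone Q, ∀ j ∈ ({()} : Finset Unit),
      NB χ (X i) ((fun _ : Unit => B) j) (1 * Real.sqrt (w i * (fun _ : Unit => (#B : ℝ)) j)) := by
    intro i hi j _
    rw [one_mul]
    dsimp only
    rcases i with _ | Ψ
    · show NB χ (A.filter fun a => m / 2 ≤ (rp Φ₀ C a : ℝ)) B (Real.sqrt (PC * (2 * S) * #B))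
      have hΦle : (#Φ₀ : ℝ) ≤ #Φ := by exact_mod_cast card_le_card hΦ₀
      refine SP.FINSP.nb_mono χ _ B ?_ (hC0 (m / 2) (by positivity) _
        (fun a ha => (mem_filter.1 ha).2))
      refine Real.sqrt_le_sqrt (mul_le_mul_of_nonneg_right ?_ (Nat.cast_nonneg _))
      calc PC * (#Φ₀ * #C / (m / 2)) = PC * (2 * (#Φ₀ * (#C / m))) := by
            field_simp
        _ ≤ PC * (2 * (#Φ * (#C / m))) := by gcongr
        _ = PC * (2 * S) := by rw [hS]; ring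
    · show NB χ (A.filter fun a => m / (2 * n) ≤ (rp Ψ C a : ℝ)) B
        (Real.sqrt ((PB * #Ψ * (2 * n * (#C / m)) + (P2 * (2 * n) + P3) * S) * #B))
      have hΨ : Ψ ∈ Q := by simpa using hi
      have hnp : 0 < n := by rw [hn]; exact_mod_cast (Finset.card_pos.2 ⟨Ψ, hΨ⟩)
      have hxp : 0 < m / (2 * n) := by positivity
      have a1 : 0 ≤ PB * #Ψ * (2 * n * (#C / m)) := by positivity
      have a2 : 0 ≤ P2 * (2 * n) * S := by positivity
      have a3 : 0 ≤ P3 * S := by positivity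
      by_cases hbig : P2 * #Φ ≤ #Ψ
      · by_cases hA' : P3 * S ≤ #(A.filter fun a => m / (2 * n) ≤ (rp Ψ C a : ℝ))
        · refine SP.FINSP.nb_mono χ _ B ?_ (hB0 Ψ hΨ hbig (m / (2 * n)) hxp _
            (filter_subset _ _) (fun a ha => (mem_filter.1 ha).2) hA')
          refine Real.sqrt_le_sqrt (mul_le_mul_of_nonneg_right ?_ (Nat.cast_nonneg _))
          calc PB * (#Ψ * #C / (m / (2 * n))) = PB * #Ψ * (2 * n * (#C / m)) := by
                field_simp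
            _ ≤ _ := by
                have : 0 ≤ (P2 * (2 * n) + P3) * S := by positivity
                linarith
        · refine triv_part χ _ B ?_
          have h4 := (not_le.1 hA').le
          linarith
      · refine triv_part χ _ B ?_
        refine (card_part Ψ C _ hxp (fun a ha => (mem_filter.1 ha).2)).trans ?_
        have h4 := (not_le.1 hbig).le
        calc (#Ψ : ℝ) * #C / (m / (2 * n)) = #Ψ * (2 * n * (#C / m)) := by
              field_simp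
          _ ≤ P2 * #Φ * (2 * n * (#C / m)) := mul_le_mul_of_nonneg_right h4 (by positivity)
          _ = P2 * (2 * n) * S := by rw [hS]; ring
          _ ≤ _ := by linarith
  have hU := specUNI p χ (Option (Finset (M2 p))) Unit (insertNone Q) {()} X (fun _ => B) w
    (fun _ => (#B : ℝ)) 1 zero_le_one hw0 (fun _ _ => Nat.cast_nonneg _) hblock A B
    hcover (fun b hb => ⟨(), mem_singleton_self _, hb⟩)
  refine SP.FINSP.nb_mono χ _ B ?_ hU
  rw [one_mul, sum_singleton]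
  have hsw : ∑ i ∈ insertNone Q, w i ≤ (p : ℝ) ^ (-(2 * τ)) * S := by
    rw [sum_insertNone]
    have e1 : ∑ Ψ ∈ Q, w (some Ψ) ≤
        PB * #Φ * (2 * n * (#C / m)) + n * ((P2 * (2 * n) + P3) * S) := by
      have : ∀ Ψ ∈ Q, w (some Ψ) = PB * (2 * n * (#C / m)) * #Ψ + (P2 * (2 * n) + P3) * S := by
        intro Ψ _
        show PB * #Ψ * (2 * n * (#C / m)) + (P2 * (2 * n) + P3) * S = _
        ring
      rw [sum_congr rfl this, sum_add_distrib, ← mul_sum, sum_const, nsmul_eq_mul]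
      have h7 : (∑ Ψ ∈ Q, (#Ψ : ℝ)) ≤ #Φ := by exact_mod_cast hsum
      have h8 : PB * (2 * n * (#C / m)) * ∑ Ψ ∈ Q, (#Ψ : ℝ) ≤ PB * (2 * n * (#C / m)) * #Φ :=
        mul_le_mul_of_nonneg_left h7 (by positivity)
      rw [← hn]
      linarith
    have e2 : w none = PC * (2 * S) := rfl
    have e3 : PB * #Φ * (2 * n * (#C / m)) + n * ((P2 * (2 * n) + P3) * S) =
        (2 * (PB * n) + 2 * (P2 * n ^ 2) + P3 * n) * S := by
      rw [hS]
      ring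
    rw [e2]
    have q4 : (p : ℝ) ^ (-(2 * τ)) = (p : ℝ) ^ (2 * τ) * (p : ℝ) ^ (-(4 * τ)) := by
      rw [← Real.rpow_add hp0]
      congr 1
      ring
    have q1 : PC ≤ (p : ℝ) ^ (-(4 * τ)) :=
      Real.rpow_le_rpow_of_exponent_le hp1 (by linarith)
    have q3 : PB * n ≤ (p : ℝ) ^ (-(4 * τ)) := by
      calc PB * n ≤ PB * (p : ℝ) ^ (2 * δ₁) := mul_le_mul_of_nonneg_left hQ hPB0.le
        _ = (p : ℝ) ^ (-(2 * τB) + 2 * δ₁) := by rw [hPB, ← Real.rpow_add hp0]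
        _ ≤ _ := Real.rpow_le_rpow_of_exponent_le hp1 (by linarith)
    have q5 : P2 * n ^ 2 ≤ (p : ℝ) ^ (-(4 * τ)) := by
      calc P2 * n ^ 2 ≤ P2 * ((p : ℝ) ^ (2 * δ₁)) ^ 2 :=
            mul_le_mul_of_nonneg_left (pow_le_pow_left₀ hn0 hQ 2) hP20.le
        _ = (p : ℝ) ^ (-(δ / 2) + 2 * δ₁ * 2) := by
            rw [hP2, ← Real.rpow_natCast ((p : ℝ) ^ (2 * δ₁)) 2, ← Real.rpow_mul hp0.le,
              ← Real.rpow_add hp0]
            norm_num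
        _ ≤ _ := Real.rpow_le_rpow_of_exponent_le hp1 (by linarith)
    have q6 : P3 * n ≤ (p : ℝ) ^ (-(4 * τ)) := by
      calc P3 * n ≤ P3 * (p : ℝ) ^ (2 * δ₁) := mul_le_mul_of_nonneg_left hQ hP30.le
        _ = (p : ℝ) ^ (-(δ / 8) + 2 * δ₁) := by rw [hP3, ← Real.rpow_add hp0]
        _ ≤ _ := Real.rpow_le_rpow_of_exponent_le hp1 (by linarith)
    have q7 : 0 < (p : ℝ) ^ (-(4 * τ)) := by positivity
    calc PC * (2 * S) + ∑ Ψ ∈ Q, w (some Ψ) ≤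
          PC * (2 * S) + (2 * (PB * n) + 2 * (P2 * n ^ 2) + P3 * n) * S := by
          rw [← e3]
          linarith
      _ = (2 * PC + 2 * (PB * n) + 2 * (P2 * n ^ 2) + P3 * n) * S := by ring
      _ ≤ (8 * (p : ℝ) ^ (-(4 * τ))) * S :=
          mul_le_mul_of_nonneg_right (by linarith) hS0
      _ ≤ (p : ℝ) ^ (2 * τ) * (p : ℝ) ^ (-(4 * τ)) * S :=
          mul_le_mul_of_nonneg_right (mul_le_mul_of_nonneg_right hp8 (by positivity)) hS0
      _ = _ := by rw [q4]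
  calc Real.sqrt ((∑ i ∈ insertNone Q, w i) * #B) ≤
        Real.sqrt ((p : ℝ) ^ (-(2 * τ)) * S * #B) :=
        Real.sqrt_le_sqrt (mul_le_mul_of_nonneg_right hsw (Nat.cast_nonneg _))
    _ = (p : ℝ) ^ (-τ) * Real.sqrt (S * #B) := by
        rw [mul_assoc, sqrt_form]

omit [Fact p.Prime] in
lemma ET_mono (r : M2 p) {A A' : Finset (ZMod p)} (h : A' ⊆ A) : ET r A' ≤ ET r A := by
  unfold ET
  refine card_le_card fun q hq => ?_
  simp only [mem_filter, mem_product] at hq ⊢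
  exact ⟨⟨⟨h hq.1.1.1, h hq.1.1.2⟩, ⟨h hq.1.2.1, h hq.1.2.2⟩⟩, hq.2⟩

end FINPH

open FINPH in
/-- **THEOREM PH** -/
theorem finalPH (hPG : FinalPG) (hLT : SpecLT) (hPLT : SpecPLT) : FinalPH := by
  classical
  intro δ hδ
  obtain ⟨τB, hτB, PB, hPB⟩ := hLT (δ / 2) (by positivity)
  set δ₁ : ℝ := min (τB / 2) (δ / 32) with hδ₁
  have hδ₁0 : 0 < δ₁ := lt_min (by positivity) (by positivity)
  obtain ⟨τC, hτC, PC, hPC⟩ := hPG δ₁ hδ₁0
  obtain ⟨PQ, hPQ⟩ := hPLT δ₁ hδ₁0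
  set τ : ℝ := min (min (τC / 2) (τB / 4)) (δ / 64) with hτ
  have hτ0 : 0 < τ := by
    rw [hτ]
    positivity
  have t1 : τ ≤ τC / 2 := (min_le_left _ _).trans (min_le_left _ _)
  have t2 : τ ≤ τB / 4 := (min_le_left _ _).trans (min_le_right _ _)
  have t3 : τ ≤ δ / 64 := min_le_right _ _
  have d7 : δ₁ ≤ τB / 2 := min_le_left _ _
  have d8 : δ₁ ≤ δ / 32 := min_le_right _ _
  obtain ⟨P8, hP8⟩ := MB.big 8 (2 * τ) (by positivity)
  refine ⟨τ, hτ0, max (max PB PC) (max PQ P8), ?_⟩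
  intro p _ hp A B F hB hF hAF χ hχ
  have hpr : p.Prime := Fact.out
  have hp1 : (1 : ℝ) ≤ p := by exact_mod_cast hpr.one_lt.le
  have hp1' : (1 : ℝ) < p := by exact_mod_cast hpr.one_lt
  have hp0 : (0 : ℝ) < p := by linarith
  have g1 : PB ≤ p := (le_max_left _ _).trans ((le_max_left _ _).trans hp)
  have g2 : PC ≤ p := (le_max_right _ _).trans ((le_max_left _ _).trans hp)
  have g5 : PQ ≤ p := (le_max_left _ _).trans ((le_max_right _ _).trans hp)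
  have g6 : P8 ≤ p := (le_max_right _ _).trans ((le_max_right _ _).trans hp)
  have hS0 : ∀ q ∈ F, (0 : ℝ) ≤ (#q.1 : ℝ) * #q.2.1 / q.2.2 := fun _ _ => by positivity
  have hU := specUNI p χ (Finset (M2 p) × Finset (ZMod p) × ℕ) Unit F {()}
    (fun q => A.filter fun a => q.2.2 ≤ rp q.1 q.2.1 a) (fun _ => B)
    (fun q => (#q.1 : ℝ) * #q.2.1 / q.2.2)
    (fun _ => (#B : ℝ)) ((p : ℝ) ^ (-τ)) (by positivity) hS0 (fun _ _ => Nat.cast_nonneg _) ?_
    A B ?_ (fun b hb => ⟨(), mem_singleton_self _, hb⟩)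
  · rw [sum_singleton] at hU
    exact hU
  · intro q hq j _
    obtain ⟨hdet, hinj, hΦc, hC, hm, hen⟩ := hF q hq
    have hm0 : (0 : ℝ) < (q.2.2 : ℝ) := by exact_mod_cast hm
    obtain ⟨Φ₀, Q, hΦ₀, hQsub, hcov, hQ, hsum, hoff, hQc⟩ := hPQ p g5 q.1 hdet
    have hΦpos : (0 : ℝ) < #q.1 := lt_of_lt_of_le (by positivity) hΦc
    set Aq := A.filter fun a => q.2.2 ≤ rp q.1 q.2.1 a with hAq
    refine one_q (δ := δ) (δ₁ := δ₁) (τ := τ) (τB := τB) (τC := τC) hδ₁0 (by linarith)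
      (by linarith) (by linarith) (by linarith) (by linarith) (hP8 p g6) χ q.1 q.2.1 Aq B hm0
      (fun a ha => by exact_mod_cast (mem_filter.1 ha).2)
      Φ₀ Q hΦ₀ hcov hQ hsum ?_ ?_
    · intro x hx A' hA'
      have hn : 1 ≤ ⌈x⌉₊ := Nat.one_le_iff_ne_zero.2 (Nat.ceil_pos.2 hx).ne'
      have h := hPC p g2 B {(Φ₀, q.2.1, ⌈x⌉₊)}
        ((Real.rpow_le_rpow_of_exponent_le hp1 (by linarith)).trans hB) (by
        intro q' hq'
        rw [mem_singleton] at hq'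
        subst hq'
        exact ⟨fun φ hφ => hdet φ (hΦ₀ hφ),
          fun φ hφ ψ hψ => hinj φ (hΦ₀ hφ) ψ (hΦ₀ hψ), hoff,
          (Real.rpow_le_rpow_of_exponent_le hp1 (by linarith)).trans hC, hn⟩) A' (by
        intro a ha
        refine ⟨_, mem_singleton_self _, ?_⟩
        exact Nat.ceil_le.2 (hA' a ha)) χ hχ
      rw [sum_singleton, sqrt_form] at h
      refine SP.FINSP.nb_mono χ _ B ?_ h
      refine Real.sqrt_le_sqrt ?_
      rw [mul_assoc]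
      refine mul_le_mul_of_nonneg_left (mul_le_mul_of_nonneg_right ?_ (Nat.cast_nonneg _))
        (by positivity)
      exact div_le_div_of_nonneg_left (by positivity) hx (Nat.le_ceil x)
    · intro Ψ hΨ hbig x hx A' hA'A hA' hAbig
      have hsub := hQsub Ψ hΨ
      obtain ⟨r₀, r₁, hr, hrel⟩ := hQc Ψ hΨ
      have hΨc : (p : ℝ) ^ (δ / 2) ≤ #Ψ := by
        refine le_trans ?_ hbig
        calc (p : ℝ) ^ (δ / 2) = (p : ℝ) ^ (-(δ / 2)) * (p : ℝ) ^ δ := by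
              rw [← Real.rpow_add hp0]
              congr 1
              ring
          _ ≤ _ := mul_le_mul_of_nonneg_left hΦc (by positivity)
      have hrich : (p : ℝ) ^ (-δ) * #q.1 < #(q.1.filter fun φ => φ * r₀ = r₁ * φ) := by
        have e1 : (#Ψ : ℝ) ≤ #(q.1.filter fun φ => φ * r₀ = r₁ * φ) := by
          exact_mod_cast card_le_card fun φ hφ => mem_filter.2 ⟨hsub hφ, hrel φ hφ⟩
        refine lt_of_lt_of_le ?_ (hbig.trans e1)
        exact mul_lt_mul_of_pos_right (Real.rpow_lt_rpow_of_exponent_lt hp1' (by linarith)) hΦpos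
      have hE := hen r₀ r₁ hr hrich
      refine hPB p g1 Ψ r₀ r₁ q.2.1 A' B x (fun φ hφ => hdet φ (hsub hφ))
        (fun φ hφ ψ hψ => hinj φ (hsub hφ) ψ (hsub hψ)) hr hrel hΨc
        ((Real.rpow_le_rpow_of_exponent_le hp1 (by linarith)).trans hC) hx hA' ?_
        ((Real.rpow_le_rpow_of_exponent_le hp1 (by linarith)).trans hB) χ hχ
      have e2 : (ET r₁ A' : ℝ) ≤ ET r₁ Aq := by exact_mod_cast ET_mono r₁ hA'A
      have e3 : (p : ℝ) ^ (1 / 2 + δ / 2) = (p : ℝ) ^ (-(δ / 2)) * (p : ℝ) ^ (1 / 2 + δ) := by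
        rw [← Real.rpow_add hp0]
        congr 1
        ring
      have e4 : (p : ℝ) ^ (-(δ / 2)) = ((p : ℝ) ^ (-(δ / 8))) ^ 4 := by
        rw [← Real.rpow_natCast, ← Real.rpow_mul hp0.le]
        congr 1
        push_cast
        ring
      calc (p : ℝ) ^ (1 / 2 + δ / 2) * ET r₁ A' ≤ (p : ℝ) ^ (1 / 2 + δ / 2) * ET r₁ Aq :=
            mul_le_mul_of_nonneg_left e2 (by positivity)
        _ = (p : ℝ) ^ (-(δ / 2)) * ((p : ℝ) ^ (1 / 2 + δ) * ET r₁ Aq) := by rw [e3]; ring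
        _ ≤ (p : ℝ) ^ (-(δ / 2)) * ((#q.1 : ℝ) * #q.2.1 / q.2.2) ^ 4 :=
            mul_le_mul_of_nonneg_left hE (by positivity)
        _ = ((p : ℝ) ^ (-(δ / 8)) * ((#q.1 : ℝ) * #q.2.1 / q.2.2)) ^ 4 := by
            rw [e4, mul_pow]
        _ ≤ _ := pow_le_pow_left₀ (by positivity) hAbig 4
  · intro a ha
    obtain ⟨q, hq, hqa⟩ := hAF a ha
    exact ⟨q, hq, mem_filter.2 ⟨ha, hqa⟩⟩

end MPcb27.PH
end

section
/-!
# MP_cb27ba_nt, project PH, LT: one abelian family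
-/
set_option autoImplicit false

namespace MPcb27.PH

open Finset Matrix
open scoped Pointwise
open MPcb27.TU MPcb27.TW MPcb27.LN MPcb27.MB MPcb27.PG MPcb27.PG.FINPG

namespace LTM

/-- a smaller set -/
lemma nb_sub {p : ℕ} {χ : MulChar (ZMod p) ℂ} {A X B : Finset (ZMod p)} {M : ℝ} (h : A ⊆ X)
    (hN : NB χ X B M) : NB χ A B M := by
  classical
  intro α β
  have h1 := hN (fun a => if a ∈ A then α a else 0) β
  have h2 : ∑ a ∈ X, ∑ b ∈ B, (if a ∈ A then α a else 0) * β b * χ (a - b) =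
      ∑ a ∈ A, ∑ b ∈ B, α a * β b * χ (a - b) := by
    symm
    rw [← sum_subset h]
    · refine sum_congr rfl fun a ha => sum_congr rfl fun b _ => ?_
      rw [if_pos ha]
    · intro a _ ha
      refine sum_eq_zero fun b _ => ?_
      rw [if_neg ha, zero_mul, zero_mul]
  have h3 : ∑ a ∈ X, ‖(if a ∈ A then α a else 0 : ℂ)‖ ^ 2 = ∑ a ∈ A, ‖α a‖ ^ 2 := by
    symm
    rw [← sum_subset h]
    · refine sum_congr rfl fun a ha => ?_
      rw [if_pos ha]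
    · intro a _ ha
      rw [if_neg ha, norm_zero, zero_pow two_ne_zero]
  rwa [h2, h3] at h1

/-- the transposed matrix -/
lemma nb_symm {p : ℕ} {χ : MulChar (ZMod p) ℂ} {X Y : Finset (ZMod p)} {M : ℝ}
    (hN : NB χ X Y M) : NB χ Y X M := by
  intro α β
  have h1 := hN β α
  have h2 : ∑ a ∈ Y, ∑ b ∈ X, α a * β b * χ (a - b) =
      χ (-1) * ∑ b ∈ X, ∑ a ∈ Y, β b * α a * χ (b - a) := by
    rw [sum_comm, mul_sum]
    refine sum_congr rfl fun b _ => ?_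
    rw [mul_sum]
    refine sum_congr rfl fun a _ => ?_
    have h3 : χ (a - b) = χ (-1) * χ (b - a) := by
      rw [← map_mul]
      congr 1
      ring
    rw [h3]
    ring
  have h4 : ‖χ (-1)‖ ≤ 1 := DirichletCharacter.norm_le_one χ _
  calc ‖∑ a ∈ Y, ∑ b ∈ X, α a * β b * χ (a - b)‖
      = ‖χ (-1)‖ * ‖∑ b ∈ X, ∑ a ∈ Y, β b * α a * χ (b - a)‖ := by rw [h2, norm_mul]
    _ ≤ 1 * ‖∑ b ∈ X, ∑ a ∈ Y, β b * α a * χ (b - a)‖ :=
        mul_le_mul_of_nonneg_right h4 (norm_nonneg _)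
    _ ≤ _ := by
        rw [one_mul]
        refine h1.trans_eq ?_
        ring

/-- the diagonal of the energy -/
lemma sq_le_ET {p : ℕ} [Fact p.Prime] (r : M2 p) (A : Finset (ZMod p)) : #A ^ 2 ≤ ET r A := by
  classical
  rw [sq, ← card_product, ET]
  refine card_le_card_of_injOn (fun q => ((q.1, q.1), (q.2, q.2))) ?_ ?_
  · intro q hq
    rw [mem_coe, mem_product] at hq
    simp only [mem_coe, mem_filter, mem_product]
    refine ⟨⟨⟨hq.1, hq.1⟩, ⟨hq.2, hq.2⟩⟩, 1, ?_, by rw [one_mul, mul_one], ?_, ?_⟩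
    · rw [det_one]
      exact one_ne_zero
    · constructor <;> simp [den, mob]
    · constructor <;> simp [den, mob]
  · rintro ⟨a, b⟩ _ ⟨c, d⟩ _ h
    simp only [Prod.mk.injEq] at h
    obtain ⟨⟨h1, _⟩, ⟨h2, _⟩⟩ := h
    rw [h1, h2]

/-- the second case of LT, for one set `B'` and one prime. `T = p`. -/
lemma step (hPOP : SpecPOP) (hSWP : SpecSWP) (hNET : SpecNET) {p : ℕ} [Fact p.Prime]
    (hp2 : p ≠ 2) {δ δa δb τb τ₁ : ℝ} (hAb : AM p δb τb) (hδb : δb = δ / 2) (hδ1 : δ ≤ 1 / 2)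
    (ha1 : 20 * δa ≤ δ) (ha2 : 20 * δa ≤ τb) (ha0 : 0 < δa)
    (ht : 4 * τ₁ ≤ τb) (hp16 : 16 ≤ (p : ℝ) ^ (δa / 2))
    (χ : MulChar (ZMod p) ℂ) (hχ : χ ≠ 1)
    (Ψ : Finset (M2 p)) (r₀ r₁ : M2 p) (A B : Finset (ZMod p)) (S : ℝ)
    (hdet : ∀ φ ∈ Ψ, φ.det ≠ 0) (hinj : ∀ φ ∈ Ψ, ∀ ψ ∈ Ψ, ∀ c : ZMod p, ψ = c • φ → ψ = φ)
    (hr : NonSc r₁) (hcom : ∀ φ ∈ Ψ, φ * r₀ = r₁ * φ) (hΨ : (p : ℝ) ^ δ ≤ #Ψ)
    (hAS : (#A : ℝ) ≤ S) (hAne : A.Nonempty)
    (hE : (p : ℝ) ^ (1 / 2 + δ) * ET r₁ A ≤ (#A : ℝ) ^ 4)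
    (hB : (p : ℝ) ^ (1 / 2 - δa / 4) ≤ #B)
    (hN : (#Ψ : ℝ) ^ 2 * (#B : ℝ) ^ 4 ≤ (p : ℝ) ^ (1 + δa) * NAM Ψ B) :
    ∃ B'' : Finset (ZMod p), B'' ⊆ B ∧ B''.Nonempty ∧
      NB χ A B'' (Real.sqrt ((p : ℝ) ^ (-τ₁) * S * #B'')) := by
  classical
  have hpr : p.Prime := Fact.out
  have hp1 : (1 : ℝ) ≤ p := by exact_mod_cast hpr.one_lt.le
  have hp0 : (0 : ℝ) < p := by linarith
  have hmono : ∀ {s t : ℝ}, s ≤ t → (p : ℝ) ^ s ≤ (p : ℝ) ^ t := fun h =>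
    Real.rpow_le_rpow_of_exponent_le hp1 h
  have hbig : ∀ {t : ℝ}, δa / 2 ≤ t → 16 ≤ (p : ℝ) ^ t := fun h => hp16.trans (hmono h)
  have hBpos : (0 : ℝ) < #B := lt_of_lt_of_le (by positivity) hB
  have hBne : B.Nonempty := by
    rw [← card_pos]
    exact_mod_cast hBpos
  have hΨpos : (0 : ℝ) < #Ψ := lt_of_lt_of_le (by positivity) hΨ
  have hΨne : Ψ.Nonempty := by
    rw [← card_pos]
    exact_mod_cast hΨpos
  have hApos : (0 : ℝ) < #A := by exact_mod_cast hAne.card_pos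
  -- the parameter `lam`
  set lam : ℝ := (p : ℝ) ^ (-(1 + δa)) * (#B : ℝ) ^ 2 / 2 with hlam
  have hlam0 : 0 < lam := by positivity
  have hB2 : (p : ℝ) ^ (1 - δa / 2) ≤ (#B : ℝ) ^ 2 := by
    calc (p : ℝ) ^ (1 - δa / 2) = ((p : ℝ) ^ (1 / 2 - δa / 4)) ^ 2 := by
          rw [← Real.rpow_natCast, ← Real.rpow_mul hp0.le]
          congr 1
          push_cast
          ring
      _ ≤ _ := pow_le_pow_left₀ (by positivity) hB 2
  have hlam1 : (p : ℝ) ^ (-(2 * δa)) ≤ lam := by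
    have h1 : 2 * (p : ℝ) ^ (-(2 * δa)) ≤ (p : ℝ) ^ (δa / 2) * (p : ℝ) ^ (-(2 * δa)) :=
      mul_le_mul_of_nonneg_right (by linarith) (by positivity)
    have h2 : (p : ℝ) ^ (δa / 2) * (p : ℝ) ^ (-(2 * δa)) =
        (p : ℝ) ^ (-(1 + δa)) * (p : ℝ) ^ (1 - δa / 2) := by
      rw [← Real.rpow_add hp0, ← Real.rpow_add hp0]
      congr 1
      ring
    have h3 : (p : ℝ) ^ (-(1 + δa)) * (p : ℝ) ^ (1 - δa / 2) ≤
        (p : ℝ) ^ (-(1 + δa)) * (#B : ℝ) ^ 2 :=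
      mul_le_mul_of_nonneg_left hB2 (by positivity)
    rw [hlam]
    linarith
  have hNl : 2 * lam * ((#Ψ : ℝ) ^ 2 * (#B : ℝ) ^ 2) ≤ NAM Ψ B := by
    have h1 : 2 * lam * ((#Ψ : ℝ) ^ 2 * (#B : ℝ) ^ 2) =
        (p : ℝ) ^ (-(1 + δa)) * ((#Ψ : ℝ) ^ 2 * (#B : ℝ) ^ 4) := by
      rw [hlam]
      ring
    rw [h1]
    calc (p : ℝ) ^ (-(1 + δa)) * ((#Ψ : ℝ) ^ 2 * (#B : ℝ) ^ 4)
        ≤ (p : ℝ) ^ (-(1 + δa)) * ((p : ℝ) ^ (1 + δa) * NAM Ψ B) :=
          mul_le_mul_of_nonneg_left hN (by positivity)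
      _ = _ := by
          rw [← mul_assoc, ← Real.rpow_add hp0, neg_add_cancel, Real.rpow_zero, one_mul]
  obtain ⟨Z, B₁, hB₁, hZ1, hZ2, hB₁l, hrep⟩ := hPOP p Ψ B lam hdet hΨne hBne hlam0 hNl
  obtain ⟨Φ, C', D, hD, hΦ, hΦinj, hΦZ, hZΦ, hCΨ, hΨC, hrp⟩ :=
    hSWP p hp2 Ψ r₀ r₁ Z hdet hinj hr hcom hΨne
  have hZ1' : lam * (#Z : ℝ) ≤ #B := hZ1
  have hΦZ' : (#Φ : ℝ) ≤ #Z := by exact_mod_cast hΦZ
  have hZΦ' : (#Z : ℝ) ≤ #Φ + 3 := by exact_mod_cast hZΦ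
  have hCΨ' : (#C' : ℝ) ≤ #Ψ := by exact_mod_cast hCΨ
  have hΨC' : (#Ψ : ℝ) ≤ #C' + 1 := by exact_mod_cast hΨC
  have hD' : (#D : ℝ) ≤ 2 := by exact_mod_cast hD
  -- sizes
  have hlB : (p : ℝ) ^ (1 / 2 - 9 * δa / 4) ≤ lam * #B := by
    calc (p : ℝ) ^ (1 / 2 - 9 * δa / 4) = (p : ℝ) ^ (-(2 * δa)) * (p : ℝ) ^ (1 / 2 - δa / 4) := by
          rw [← Real.rpow_add hp0]
          congr 1
          ring
      _ ≤ _ := mul_le_mul hlam1 hB (by positivity) hlam0.le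
  have hlB16 : 16 ≤ lam * #B := (hbig (by linarith)).trans hlB
  have hlΨ : 16 ≤ lam * #Ψ := by
    calc (16 : ℝ) ≤ (p : ℝ) ^ (-(2 * δa) + δ) := hbig (by linarith)
      _ = (p : ℝ) ^ (-(2 * δa)) * (p : ℝ) ^ δ := Real.rpow_add hp0 _ _
      _ ≤ _ := mul_le_mul hlam1 hΨ (by positivity) hlam0.le
  set B₂ : Finset (ZMod p) := B₁ \ D with hB₂
  have hB₂c : (#B₁ : ℝ) ≤ #B₂ + 2 := by
    have h1 : #B₁ ≤ #(B₁ \ D) + #D := by
      have := le_card_sdiff D B₁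
      omega
    have h2 : (#B₁ : ℝ) ≤ #(B₁ \ D) + #D := by exact_mod_cast h1
    rw [hB₂]
    linarith
  have hB₂l : lam * #B ≤ 4 * #B₂ := by linarith
  have hB₂pos : (0 : ℝ) < #B₂ := by linarith
  refine ⟨B₂, sdiff_subset.trans hB₁, ?_, ?_⟩
  · rw [← card_pos]
    exact_mod_cast hB₂pos
  -- theorem A with the roles swapped
  set k : ℝ := lam * #Ψ / 4 with hk
  have hk0 : 0 < k := by positivity
  have hsubX : B₂ ⊆ XA Φ C' k := by
    intro b hb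
    rw [hB₂, mem_sdiff] at hb
    rw [XA, mem_filter]
    refine ⟨mem_univ _, ?_⟩
    have h1 := hrep b hb.1
    have h2 : (rp Ψ Z b : ℝ) ≤ rp Φ C' b + 2 := by exact_mod_cast hrp b hb.2
    rw [hk]
    linarith
  -- the conditions
  have hA2 : (p : ℝ) ^ (1 / 2 + δ) ≤ (#A : ℝ) ^ 2 := by
    have h1 : (#A : ℝ) ^ 2 ≤ ET r₁ A := by exact_mod_cast sq_le_ET r₁ A
    have h2 : (p : ℝ) ^ (1 / 2 + δ) * (#A : ℝ) ^ 2 ≤ (#A : ℝ) ^ 2 * (#A : ℝ) ^ 2 := by
      calc (p : ℝ) ^ (1 / 2 + δ) * (#A : ℝ) ^ 2 ≤ (p : ℝ) ^ (1 / 2 + δ) * ET r₁ A :=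
            mul_le_mul_of_nonneg_left h1 (by positivity)
        _ ≤ _ := hE
        _ = _ := by ring
    exact le_of_mul_le_mul_right h2 (by positivity)
  have hA1 : (p : ℝ) ^ δb ≤ #A := by
    have h1 : ((p : ℝ) ^ δb) ^ 2 ≤ (#A : ℝ) ^ 2 := by
      refine le_trans ?_ hA2
      rw [← Real.rpow_natCast, ← Real.rpow_mul hp0.le]
      refine hmono ?_
      push_cast
      rw [hδb]
      linarith
    exact le_of_sq_le_sq h1 hApos.le
  have hC' : (p : ℝ) ^ δb ≤ #C' := by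
    have h1 : (p : ℝ) ^ δ = (p : ℝ) ^ δb * (p : ℝ) ^ δb := by
      rw [← Real.rpow_add hp0, hδb]
      congr 1
      ring
    have h2 : 16 ≤ (p : ℝ) ^ δb := hbig (by rw [hδb]; linarith)
    nlinarith
  have hNA : (p : ℝ) ^ (1 + δb) * NAM Φ A ≤ (#Φ : ℝ) ^ 2 * (#A : ℝ) ^ 4 := by
    have h1 : (NAM Φ A : ℝ) ≤ #Φ * ET r₁ A + 4 * (#Φ : ℝ) ^ 2 := by
      exact_mod_cast hNET p Φ r₁ A hr hΦ hΦinj
    -- `ET`
    have h2 : (p : ℝ) ^ (1 + δb) * ET r₁ A ≤ #Φ / 2 * (#A : ℝ) ^ 4 := by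
      have h3 : (p : ℝ) ^ (1 + δb) = (p : ℝ) ^ (1 / 2 - δ / 2) * (p : ℝ) ^ (1 / 2 + δ) := by
        rw [← Real.rpow_add hp0, hδb]
        congr 1
        ring
      have h4 : (p : ℝ) ^ (1 / 2 - δ / 2) ≤ #Φ / 2 := by
        have h5 : 16 * (p : ℝ) ^ (1 / 2 - δ / 2) ≤ (p : ℝ) ^ (1 / 2 - 9 * δa / 4) := by
          calc 16 * (p : ℝ) ^ (1 / 2 - δ / 2) ≤
                (p : ℝ) ^ (δa / 2) * (p : ℝ) ^ (1 / 2 - δ / 2) :=
                mul_le_mul_of_nonneg_right hp16 (by positivity)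
            _ = (p : ℝ) ^ (δa / 2 + (1 / 2 - δ / 2)) := (Real.rpow_add hp0 _ _).symm
            _ ≤ _ := hmono (by linarith)
        have h6 : (1 : ℝ) ≤ (p : ℝ) ^ (1 / 2 - δ / 2) := Real.one_le_rpow hp1 (by linarith)
        linarith
      rw [h3, mul_assoc]
      exact mul_le_mul h4 hE (by positivity) (by positivity)
    have h7 : (p : ℝ) ^ (1 + δb) * 4 ≤ (#A : ℝ) ^ 4 / 2 := by
      have h8 : (p : ℝ) ^ (1 + 2 * δ) ≤ (#A : ℝ) ^ 4 := by
        calc (p : ℝ) ^ (1 + 2 * δ) = ((p : ℝ) ^ (1 / 2 + δ)) ^ 2 := by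
              rw [← Real.rpow_natCast, ← Real.rpow_mul hp0.le]
              congr 1
              push_cast
              ring
          _ ≤ ((#A : ℝ) ^ 2) ^ 2 := pow_le_pow_left₀ (by positivity) hA2 2
          _ = _ := by ring
      have h9 : 16 * (p : ℝ) ^ (1 + δb) ≤ (p : ℝ) ^ (1 + 2 * δ) := by
        calc 16 * (p : ℝ) ^ (1 + δb) ≤ (p : ℝ) ^ (δa / 2) * (p : ℝ) ^ (1 + δb) :=
              mul_le_mul_of_nonneg_right hp16 (by positivity)
          _ = (p : ℝ) ^ (δa / 2 + (1 + δb)) := (Real.rpow_add hp0 _ _).symm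
          _ ≤ _ := hmono (by rw [hδb]; linarith)
      have h10 : (0 : ℝ) < (p : ℝ) ^ (1 + δb) := by positivity
      linarith
    calc (p : ℝ) ^ (1 + δb) * NAM Φ A
        ≤ (p : ℝ) ^ (1 + δb) * (#Φ * ET r₁ A + 4 * (#Φ : ℝ) ^ 2) :=
          mul_le_mul_of_nonneg_left h1 (by positivity)
      _ = #Φ * ((p : ℝ) ^ (1 + δb) * ET r₁ A) + (#Φ : ℝ) ^ 2 * ((p : ℝ) ^ (1 + δb) * 4) := by
          ring
      _ ≤ #Φ * (#Φ / 2 * (#A : ℝ) ^ 4) + (#Φ : ℝ) ^ 2 * ((#A : ℝ) ^ 4 / 2) :=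
          add_le_add (mul_le_mul_of_nonneg_left h2 (by positivity))
            (mul_le_mul_of_nonneg_left h7 (by positivity))
      _ = _ := by ring
  have hmain := part_A hAb χ hχ Φ C' A hk0 (fun φ hφ => (hΦ φ hφ).1) hC' hA1 hNA
  refine SP.FINSP.nb_mono χ A B₂ (Real.sqrt_le_sqrt ?_) (nb_symm (nb_sub hsubX hmain))
  -- `#Φ #C' / k ≤ 16 #B₂ / lam ^ 3`
  have h1 : (#Φ : ℝ) * #C' / k ≤ 4 * #Z / lam := by
    rw [div_le_div_iff₀ hk0 hlam0, hk]
    have : (#Φ : ℝ) * #C' ≤ #Z * #Ψ := mul_le_mul hΦZ' hCΨ' (by positivity) (by positivity)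
    nlinarith [mul_le_mul_of_nonneg_left this hlam0.le]
  have h2 : 4 * (#Z : ℝ) / lam ≤ 16 * #B₂ / lam ^ 3 := by
    rw [div_le_div_iff₀ hlam0 (by positivity)]
    have h3 : lam ^ 2 * (#Z : ℝ) ≤ 4 * #B₂ := by
      calc lam ^ 2 * (#Z : ℝ) = lam * (lam * #Z) := by ring
        _ ≤ lam * #B := mul_le_mul_of_nonneg_left hZ1' hlam0.le
        _ ≤ _ := hB₂l
    nlinarith [mul_le_mul_of_nonneg_left h3 hlam0.le]
  have h3 : 16 / lam ^ 3 ≤ (p : ℝ) ^ (δa / 2) * (p : ℝ) ^ (6 * δa) := by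
    have h4 : (p : ℝ) ^ (-(6 * δa)) ≤ lam ^ 3 := by
      calc (p : ℝ) ^ (-(6 * δa)) = ((p : ℝ) ^ (-(2 * δa))) ^ 3 := by
            rw [← Real.rpow_natCast, ← Real.rpow_mul hp0.le]
            congr 1
            push_cast
            ring
        _ ≤ _ := pow_le_pow_left₀ (by positivity) hlam1 3
    rw [div_le_iff₀ (by positivity)]
    calc (16 : ℝ) ≤ (p : ℝ) ^ (δa / 2) * 1 := by rw [mul_one]; exact hp16
      _ = (p : ℝ) ^ (δa / 2) * ((p : ℝ) ^ (6 * δa) * (p : ℝ) ^ (-(6 * δa))) := by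
          rw [← Real.rpow_add hp0, add_neg_cancel, Real.rpow_zero]
      _ ≤ (p : ℝ) ^ (δa / 2) * ((p : ℝ) ^ (6 * δa) * lam ^ 3) := by gcongr
      _ = _ := by ring
  have h4 : (p : ℝ) ^ (-(2 * τb)) * (16 / lam ^ 3) ≤ (p : ℝ) ^ (-τ₁) := by
    calc (p : ℝ) ^ (-(2 * τb)) * (16 / lam ^ 3)
        ≤ (p : ℝ) ^ (-(2 * τb)) * ((p : ℝ) ^ (δa / 2) * (p : ℝ) ^ (6 * δa)) :=
          mul_le_mul_of_nonneg_left h3 (by positivity)
      _ = (p : ℝ) ^ (-(2 * τb) + (δa / 2 + 6 * δa)) := by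
          rw [← Real.rpow_add hp0, ← Real.rpow_add hp0]
      _ ≤ _ := hmono (by linarith)
  calc (p : ℝ) ^ (-(2 * τb)) * ((#Φ : ℝ) * #C' / k) * #A
      ≤ (p : ℝ) ^ (-(2 * τb)) * (16 * #B₂ / lam ^ 3) * S := by
        refine mul_le_mul (mul_le_mul_of_nonneg_left (h1.trans h2) (by positivity)) hAS
          hApos.le (by positivity)
    _ = (p : ℝ) ^ (-(2 * τb)) * (16 / lam ^ 3) * (S * #B₂) := by ring
    _ ≤ (p : ℝ) ^ (-τ₁) * (S * #B₂) :=
        mul_le_mul_of_nonneg_right h4 (mul_nonneg (hApos.le.trans hAS) hB₂pos.le)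
    _ = _ := by ring

end LTM

open LTM in
theorem specLT (hA : FinalAM) (hEXH : SpecEXH) (hPOP : SpecPOP) (hSWP : SpecSWP)
    (hNET : SpecNET) : SpecLT := by
  classical
  intro δ₀ hδ₀
  set δ : ℝ := min δ₀ (1 / 2) with hδdef
  have hδ : 0 < δ := lt_min hδ₀ (by norm_num)
  have hδle : δ ≤ δ₀ := min_le_left _ _
  have hδ1 : δ ≤ 1 / 2 := min_le_right _ _
  obtain ⟨τb, hτb, Pb, hPb⟩ := hA (δ / 2) (by positivity)
  set δa : ℝ := min (τb / 20) (δ / 20) with hδa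
  have ha0 : 0 < δa := lt_min (by positivity) (by positivity)
  have ha2 : 20 * δa ≤ τb := by
    have := min_le_left (τb / 20) (δ / 20)
    linarith
  have ha1 : 20 * δa ≤ δ := by
    have := min_le_right (τb / 20) (δ / 20)
    linarith
  obtain ⟨τa, hτa, Pa, hPa⟩ := hA δa ha0
  set τ₁ : ℝ := min (δa / 8) (min (τa / 4) (τb / 4)) with hτ₁
  have h10 : 0 < τ₁ := lt_min (by positivity) (lt_min (by positivity) (by positivity))
  have t1 : 8 * τ₁ ≤ δa := by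
    have := min_le_left (δa / 8) (min (τa / 4) (τb / 4))
    linarith
  have t2 : 4 * τ₁ ≤ τa := by
    have := (min_le_right (δa / 8) (min (τa / 4) (τb / 4))).trans (min_le_left _ _)
    linarith
  have t3 : 4 * τ₁ ≤ τb := by
    have := (min_le_right (δa / 8) (min (τa / 4) (τb / 4))).trans (min_le_right _ _)
    linarith
  obtain ⟨P16, hP16⟩ := MB.big 16 (δa / 2) (by positivity)
  obtain ⟨P2, hP2⟩ := MB.big 2 (τ₁ / 2) (by positivity)
  refine ⟨τ₁ / 4, by positivity, max (max (max Pa Pb) (max P16 P2)) 3, ?_⟩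
  intro p _ hp Ψ r₀ r₁ C A B x hdet hinj hr hcom hΨ hC hx hrepA hE hB χ hχ
  have hpr : p.Prime := Fact.out
  have hp1 : (1 : ℝ) ≤ p := by exact_mod_cast hpr.one_lt.le
  have hp0 : (0 : ℝ) < p := by linarith
  have hmono : ∀ {s t : ℝ}, s ≤ t → (p : ℝ) ^ s ≤ (p : ℝ) ^ t := fun h =>
    Real.rpow_le_rpow_of_exponent_le hp1 h
  have g0 : 3 ≤ p := (le_max_right _ _).trans hp
  have g : max (max Pa Pb) (max P16 P2) ≤ p := (le_max_left _ _).trans hp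
  have g1 : Pa ≤ p := ((le_max_left _ _).trans (le_max_left _ _)).trans g
  have g2 : Pb ≤ p := ((le_max_right _ _).trans (le_max_left _ _)).trans g
  have g3 : P16 ≤ p := ((le_max_left _ _).trans (le_max_right _ _)).trans g
  have g4 : P2 ≤ p := ((le_max_right _ _).trans (le_max_right _ _)).trans g
  have hp16 := hP16 p g3
  have hp22 := hP2 p g4
  rcases A.eq_empty_or_nonempty with rfl | hAne
  · intro α β
    simp only [sum_empty, norm_zero, Real.sqrt_zero, zero_mul, mul_zero, le_refl]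
  set S : ℝ := #Ψ * #C / x with hS
  have hS0 : 0 ≤ S := by positivity
  have hAX : A ⊆ XA Ψ C x := by
    intro a ha
    rw [XA, mem_filter]
    exact ⟨mem_univ _, hrepA a ha⟩
  have hAS : (#A : ℝ) ≤ S := by
    have h1 : (#A : ℝ) ≤ #(XA Ψ C x) := by exact_mod_cast card_le_card hAX
    exact h1.trans (card_XA Ψ C hx)
  have hΨ' : (p : ℝ) ^ δ ≤ #Ψ := (hmono hδle).trans hΨ
  have hC' : (p : ℝ) ^ δ ≤ #C := (hmono hδle).trans hC
  have hE' : (p : ℝ) ^ (1 / 2 + δ) * ET r₁ A ≤ (#A : ℝ) ^ 4 :=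
    (mul_le_mul_of_nonneg_right (hmono (by linarith)) (Nat.cast_nonneg _)).trans hE
  have hex : NB χ A B (Real.sqrt (((p : ℝ) ^ (-τ₁) + (p : ℝ) ^ (-τ₁)) * S * #B)) := by
    refine hEXH p χ A B S ((p : ℝ) ^ (-τ₁)) ((p : ℝ) ^ (-τ₁)) hAS (by positivity)
      (by positivity) ?_
    intro B' hB'B hB'ne hB'
    have hB'l : (p : ℝ) ^ (1 / 2 - δa / 4) ≤ #B' := by
      calc (p : ℝ) ^ (1 / 2 - δa / 4) ≤ (p : ℝ) ^ (-τ₁ + (1 / 2 - τ₁ / 4)) :=
            hmono (by linarith)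
        _ = (p : ℝ) ^ (-τ₁) * (p : ℝ) ^ (1 / 2 - τ₁ / 4) := Real.rpow_add hp0 _ _
        _ ≤ (p : ℝ) ^ (-τ₁) * #B := mul_le_mul_of_nonneg_left hB (by positivity)
        _ ≤ _ := hB'
    rcases le_total ((p : ℝ) ^ (1 + δa) * NAM Ψ B') ((#Ψ : ℝ) ^ 2 * (#B' : ℝ) ^ 4) with h | h
    · refine ⟨B', Subset.refl _, hB'ne, ?_⟩
      have h1 := part_A (hPa p g1) χ hχ Ψ C B' hx hdet ((hmono (by linarith)).trans hC')
        ((hmono (by linarith)).trans hB'l) h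
      refine SP.FINSP.nb_mono χ A B' (Real.sqrt_le_sqrt ?_) (nb_sub hAX h1)
      refine mul_le_mul_of_nonneg_right ?_ (Nat.cast_nonneg _)
      rw [← hS]
      exact mul_le_mul_of_nonneg_right (hmono (by linarith)) hS0
    · exact step hPOP hSWP hNET (by omega) (hPb p g2) rfl hδ1 ha1 ha2 ha0 t3 hp16 χ hχ Ψ r₀
        r₁ A B' S hdet hinj hr hcom hΨ' hAS hAne hE' hB'l h
  refine SP.FINSP.nb_mono χ A B (Real.sqrt_le_sqrt ?_) hex
  refine mul_le_mul_of_nonneg_right (mul_le_mul_of_nonneg_right ?_ hS0) (Nat.cast_nonneg _)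
  calc (p : ℝ) ^ (-τ₁) + (p : ℝ) ^ (-τ₁) = 2 * (p : ℝ) ^ (-τ₁) := by ring
    _ ≤ (p : ℝ) ^ (τ₁ / 2) * (p : ℝ) ^ (-τ₁) :=
        mul_le_mul_of_nonneg_right hp22 (by positivity)
    _ = (p : ℝ) ^ (-(2 * (τ₁ / 4))) := by
        rw [← Real.rpow_add hp0]
        congr 1
        ring

end MPcb27.PH
end

section
/-!
# MP_cb27ba_nt, project PH: the pair energy of a commuting family is controlled by the `T`-energy
-/
set_option autoImplicit false

namespace MPcb27.PH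

open Finset Matrix
open scoped Pointwise
open MPcb27.TU MPcb27.TW MPcb27.LN MPcb27.MB MPcb27.PG MPcb27.PG.FINPG

namespace NET

variable {p : ℕ} [Fact p.Prime]

/-- the vector of a finite point -/
def vc (z : ZMod p) : Fin 2 → ZMod p := ![z, 1]

lemma vc_ne (z : ZMod p) : vc z ≠ 0 := by
  intro h
  have := congrFun h 1
  simp [vc] at this

lemma mv (t : M2 p) {z : ZMod p} (h : den t z ≠ 0) :
    t *ᵥ vc z = den t z • vc (mob t z) := by
  have h' : t 1 0 * z + t 1 1 ≠ 0 := h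
  ext i
  fin_cases i
  · have e : (t 1 0 * z + t 1 1) * ((t 0 0 * z + t 0 1) * (t 1 0 * z + t 1 1)⁻¹) =
        t 0 0 * z + t 0 1 := by
      rw [mul_comm, mul_assoc, inv_mul_cancel₀ h', mul_one]
    simpa [vc, den, mob, Matrix.mulVec, dotProduct, Fin.sum_univ_two] using e.symm
  · simp [vc, den, Matrix.mulVec, dotProduct, Fin.sum_univ_two]

lemma mp_of {t : M2 p} {a b c : ZMod p} (hc : c ≠ 0) (h : t *ᵥ vc a = c • vc b) : mp t a b := by
  have h0 := congrFun h 0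
  have h1 := congrFun h 1
  simp [vc, Matrix.mulVec, dotProduct, Fin.sum_univ_two] at h0 h1
  have hd : den t a = c := h1
  refine ⟨by rw [hd]; exact hc, ?_⟩
  unfold mob
  rw [h0, h1]
  field_simp

/-- a fixed finite point -/
def Fx (r : M2 p) (a : ZMod p) : Prop := ∃ c : ZMod p, r *ᵥ vc a = c • vc a

lemma fx_iff (r : M2 p) (a : ZMod p) :
    Fx r a ↔ r 1 0 * a ^ 2 + (r 1 1 - r 0 0) * a - r 0 1 = 0 := by
  constructor
  · rintro ⟨c, h⟩
    have h0 := congrFun h 0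
    have h1 := congrFun h 1
    simp [vc, Matrix.mulVec, dotProduct, Fin.sum_univ_two] at h0 h1
    linear_combination a * h1 - h0
  · intro h
    refine ⟨r 1 0 * a + r 1 1, ?_⟩
    ext i
    fin_cases i
    · simp [vc, Matrix.mulVec, dotProduct, Fin.sum_univ_two]
      linear_combination -h
    · simp [vc, Matrix.mulVec, dotProduct, Fin.sum_univ_two]

open scoped Classical in
lemma card_fx {r : M2 p} (hr : NonSc r) : #(univ.filter fun a => Fx r a) ≤ 2 := by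
  by_contra hcon
  push Not at hcon
  obtain ⟨a, ha, b, hb, c, hc, hab, hac, hbc⟩ := two_lt_card.1 hcon
  rw [mem_filter, fx_iff] at ha hb hc
  have e1 : (a - b) * (r 1 0 * (a + b) + (r 1 1 - r 0 0)) = 0 := by
    linear_combination ha.2 - hb.2
  have e2 : (a - c) * (r 1 0 * (a + c) + (r 1 1 - r 0 0)) = 0 := by
    linear_combination ha.2 - hc.2
  have f1 := (mul_eq_zero.1 e1).resolve_left (sub_ne_zero.2 hab)
  have f2 := (mul_eq_zero.1 e2).resolve_left (sub_ne_zero.2 hac)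
  have e3 : (b - c) * r 1 0 = 0 := by linear_combination f1 - f2
  have g1 := (mul_eq_zero.1 e3).resolve_left (sub_ne_zero.2 hbc)
  have g2 : r 1 1 - r 0 0 = 0 := by
    rw [g1] at f1
    linear_combination f1
  have g3 : r 0 1 = 0 := by
    have := ha.2
    rw [g1, g2] at this
    linear_combination -this
  apply hr (r 0 0)
  ext i j
  fin_cases i <;> fin_cases j
  · simp
  · simp [g3]
  · simp [g1]
  · simp
    linear_combination g2

lemma adj_comm {t r : M2 p} (ht : t.det ≠ 0) (h : t * r = r * t) :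
    t.adjugate * r = r * t.adjugate := by
  have h1 : t.adjugate * (t * r) * t.adjugate = t.adjugate * (r * t) * t.adjugate := by rw [h]
  have h2 : t.adjugate * (t * r) * t.adjugate = t.det • (r * t.adjugate) := by
    rw [← mul_assoc, Matrix.adjugate_mul, smul_mul_assoc, one_mul, smul_mul_assoc]
  have h3 : t.adjugate * (r * t) * t.adjugate = t.det • (t.adjugate * r) := by
    rw [mul_assoc, mul_assoc, Matrix.mul_adjugate, mul_smul_comm, mul_one, mul_smul_comm]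
  rw [h2, h3] at h1
  exact (smul_right_injective _ ht h1).symm

/-- a matrix commuting with `r` which kills a vector that is not an eigenvector vanishes -/
lemma zero_of {r t : M2 p} (hr : NonSc r) (h : t * r = r * t) {z : ZMod p} (hz : ¬ Fx r z)
    (h0 : t *ᵥ vc z = 0) : t = 0 := by
  obtain ⟨x, y, rfl⟩ := comm_span hr h
  rw [Matrix.add_mulVec, Matrix.smul_mulVec, Matrix.smul_mulVec, Matrix.one_mulVec] at h0
  by_cases hy : y = 0
  · subst hy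
    rw [zero_smul, add_zero] at h0
    rcases smul_eq_zero.1 h0 with hx | hv
    · rw [hx, zero_smul, zero_smul, add_zero]
    · exact absurd hv (vc_ne z)
  · exfalso
    apply hz
    refine ⟨-(y⁻¹ * x), ?_⟩
    have h1 : y • (r *ᵥ vc z) = -(x • vc z) := by
      rw [eq_neg_iff_add_eq_zero, add_comm]
      exact h0
    calc r *ᵥ vc z = y⁻¹ • (y • (r *ᵥ vc z)) := by
          rw [smul_smul, inv_mul_cancel₀ hy, one_smul]
      _ = _ := by rw [h1, smul_neg, smul_smul, neg_smul]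

/-- the image of a fixed point is fixed -/
lemma fx_map {r t : M2 p} (h : t * r = r * t) {z : ZMod p} (hz : den t z ≠ 0) (hf : Fx r z) :
    Fx r (mob t z) := by
  obtain ⟨c, hc⟩ := hf
  refine ⟨c, ?_⟩
  have h1 : (r * t) *ᵥ vc z = c • (t *ᵥ vc z) := by
    rw [← h, ← Matrix.mulVec_mulVec, hc, Matrix.mulVec_smul]
  rw [← Matrix.mulVec_mulVec, mv t hz, Matrix.mulVec_smul, smul_comm] at h1
  exact smul_right_injective _ hz h1

lemma mp_adj {φ ψ : M2 p} (hφ : φ.det ≠ 0) {z : ZMod p} (h1 : den φ z ≠ 0)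
    (h2 : den ψ z ≠ 0) : mp (ψ * φ.adjugate) (mob φ z) (mob ψ z) := by
  refine mp_of (c := (den φ z)⁻¹ * (φ.det * den ψ z))
    (mul_ne_zero (inv_ne_zero h1) (mul_ne_zero hφ h2)) ?_
  have e1 : vc (mob φ z) = (den φ z)⁻¹ • (φ *ᵥ vc z) := by
    rw [mv φ h1, smul_smul, inv_mul_cancel₀ h1, one_smul]
  rw [e1, Matrix.mulVec_smul, Matrix.mulVec_mulVec, mul_assoc, Matrix.adjugate_mul,
    mul_smul_comm, mul_one, Matrix.smul_mulVec, mv ψ h2, smul_smul, smul_smul, mul_assoc]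

lemma psi_eq {r φ ψ : M2 p} (hr : NonSc r) (hφ : φ * r = r * φ) (hψ : ψ * r = r * ψ)
    {z : ZMod p} (h1 : den φ z ≠ 0) (h2 : den ψ z ≠ 0) (h : mob φ z = mob ψ z)
    (hz : ¬ Fx r z) : ∃ c : ZMod p, ψ = c • φ := by
  have h3 : den φ z • ψ - den ψ z • φ = 0 := by
    refine zero_of hr ?_ hz ?_
    · rw [sub_mul, mul_sub, smul_mul_assoc, smul_mul_assoc, mul_smul_comm, mul_smul_comm, hφ, hψ]
    · rw [Matrix.sub_mulVec, Matrix.smul_mulVec, Matrix.smul_mulVec, mv φ h1, mv ψ h2, h,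
        smul_smul, smul_smul, mul_comm, sub_self]
  refine ⟨(den φ z)⁻¹ * den ψ z, ?_⟩
  rw [mul_smul, ← sub_eq_zero.1 h3, smul_smul, inv_mul_cancel₀ h1, one_smul]

end NET

open NET

theorem specNET : SpecNET := by
  classical
  intro p _ Φ r A hr hΦ hprop
  -- the quadruples
  obtain ⟨W, hW⟩ : ∃ W : Finset ((M2 p × M2 p) × (ZMod p × ZMod p)),
      W = ((Φ ×ˢ Φ) ×ˢ (univ ×ˢ univ)).filter (fun w =>
        (den w.1.1 w.2.1 ≠ 0 ∧ mob w.1.1 w.2.1 ∈ A ∧ den w.1.2 w.2.1 ≠ 0 ∧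
          mob w.1.2 w.2.1 ∈ A) ∧
        (den w.1.1 w.2.2 ≠ 0 ∧ mob w.1.1 w.2.2 ∈ A ∧ den w.1.2 w.2.2 ≠ 0 ∧
          mob w.1.2 w.2.2 ∈ A)) := ⟨_, rfl⟩
  have hNW : NAM Φ A = #W := by
    have h1 : #W = ∑ w ∈ Φ ×ˢ Φ, #((univ ×ˢ univ : Finset (ZMod p × ZMod p)).filter (fun z =>
        (den w.1 z.1 ≠ 0 ∧ mob w.1 z.1 ∈ A ∧ den w.2 z.1 ≠ 0 ∧ mob w.2 z.1 ∈ A) ∧
        (den w.1 z.2 ≠ 0 ∧ mob w.1 z.2 ∈ A ∧ den w.2 z.2 ≠ 0 ∧ mob w.2 z.2 ∈ A))) := by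
      rw [hW, card_filter, sum_product]
      refine sum_congr rfl fun w _ => ?_
      rw [card_filter]
    rw [h1, NAM, sum_product]
    refine sum_congr rfl fun φ _ => sum_congr rfl fun ψ _ => ?_
    rw [sq, ← card_product, ← filter_product]
  obtain ⟨Q, hQ⟩ : ∃ Q : Finset ((ZMod p × ZMod p) × (ZMod p × ZMod p)),
      Q = ((A ×ˢ A) ×ˢ (A ×ˢ A)).filter fun q => ∃ t : M2 p, t.det ≠ 0 ∧ t * r = r * t ∧
        mp t q.1.1 q.1.2 ∧ mp t q.2.1 q.2.2 := ⟨_, rfl⟩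
  have hET : ET r A = #Q := by
    rw [hQ, ET]
    congr!
  have hW' : ∀ w, w ∈ W → (w.1.1 ∈ Φ ∧ w.1.2 ∈ Φ) ∧
      (den w.1.1 w.2.1 ≠ 0 ∧ mob w.1.1 w.2.1 ∈ A ∧ den w.1.2 w.2.1 ≠ 0 ∧
          mob w.1.2 w.2.1 ∈ A) ∧
        (den w.1.1 w.2.2 ≠ 0 ∧ mob w.1.1 w.2.2 ∈ A ∧ den w.1.2 w.2.2 ≠ 0 ∧
          mob w.1.2 w.2.2 ∈ A) := by
    intro w hw
    rw [hW, mem_filter, mem_product, mem_product] at hw
    exact ⟨hw.1.1, hw.2⟩
  obtain ⟨g, hg⟩ : ∃ g : (M2 p × M2 p) × (ZMod p × ZMod p) → Prop, g = fun w =>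
      Fx r (mob w.1.1 w.2.1) ∧ Fx r (mob w.1.1 w.2.2) := ⟨_, rfl⟩
  rw [hNW, hET, ← card_filter_add_card_filter_not (s := W) g, add_comm]
  refine add_le_add ?_ ?_
  · -- not both fixed
    rw [← card_product]
    refine card_le_card_of_injOn (fun w => (w.1.1, ((mob w.1.1 w.2.1, mob w.1.2 w.2.1),
      (mob w.1.1 w.2.2, mob w.1.2 w.2.2)))) ?_ ?_
    · intro w hw
      rw [mem_coe, mem_filter] at hw
      obtain ⟨⟨hφ, hψ⟩, ⟨a1, a2, a3, a4⟩, b1, b2, b3, b4⟩ := hW' w hw.1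
      rw [mem_coe, mem_product, hQ, mem_filter, mem_product, mem_product, mem_product]
      refine ⟨hφ, ⟨⟨a2, a4⟩, b2, b4⟩, w.1.2 * w.1.1.adjugate, ?_, ?_, ?_, ?_⟩
      · rw [Matrix.det_mul, Matrix.det_adjugate]
        exact mul_ne_zero (hΦ _ hψ).1 (pow_ne_zero _ (hΦ _ hφ).1)
      · rw [mul_assoc, adj_comm (hΦ _ hφ).1 (hΦ _ hφ).2, ← mul_assoc, (hΦ _ hψ).2, mul_assoc]
      · exact mp_adj (hΦ _ hφ).1 a1 a3
      · exact mp_adj (hΦ _ hφ).1 b1 b3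
    · intro w hw w' hw' hww
      rw [mem_coe, mem_filter, hg] at hw hw'
      obtain ⟨⟨hφ, hψ⟩, ⟨a1, a2, a3, a4⟩, b1, b2, b3, b4⟩ := hW' w hw.1
      obtain ⟨⟨hφ', hψ'⟩, ⟨a1', a2', a3', a4'⟩, b1', b2', b3', b4'⟩ := hW' w' hw'.1
      have hnf := hw.2
      obtain ⟨⟨φ, ψ⟩, z1, z2⟩ := w
      obtain ⟨⟨φ', ψ'⟩, z1', z2'⟩ := w'
      simp only [Prod.mk.injEq] at hww
      obtain ⟨h1, ⟨h2, h3⟩, h4, h5⟩ := hww
      simp only at hφ hψ a1 a2 a3 a4 b1 b2 b3 b4 hφ' hψ' a1' a2' a3' a4' b1' b2' b3' b4' hnf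
      subst h1
      have e1 := mob_inj (hΦ _ hφ).1 a1 a1' h2
      have e2 := mob_inj (hΦ _ hφ).1 b1 b1' h4
      subst e1 e2
      have e3 : ψ = ψ' := by
        by_cases hf : Fx r (mob φ z1)
        · have hf2 : ¬ Fx r (mob φ z2) := fun h => hnf ⟨hf, h⟩
          have hf3 : ¬ Fx r z2 := fun h => hf2 (fx_map (hΦ _ hφ).2 b1 h)
          obtain ⟨c, hc⟩ := psi_eq hr (hΦ _ hψ').2 (hΦ _ hψ).2 b3' b3 h5.symm hf3
          exact hprop _ hψ' _ hψ c hc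
        · have hf3 : ¬ Fx r z1 := fun h => hf (fx_map (hΦ _ hφ).2 a1 h)
          obtain ⟨c, hc⟩ := psi_eq hr (hΦ _ hψ').2 (hΦ _ hψ).2 a3' a3 h3.symm hf3
          exact hprop _ hψ' _ hψ c hc
      rw [e3]
  · -- both fixed
    have h4 : 4 * #Φ ^ 2 = #Φ * #Φ * (2 * 2) := by ring
    rw [h4]
    calc #(W.filter g) ≤ #((Φ ×ˢ Φ) ×ˢ ((univ.filter fun a => Fx r a) ×ˢ
          (univ.filter fun a => Fx r a))) := by
          refine card_le_card_of_injOn (fun w => (w.1, (mob w.1.1 w.2.1, mob w.1.1 w.2.2))) ?_ ?_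
          · intro w hw
            rw [mem_coe, mem_filter, hg] at hw
            obtain ⟨⟨hφ, hψ⟩, -⟩ := hW' w hw.1
            rw [mem_coe, mem_product, mem_product, mem_product, mem_filter, mem_filter]
            exact ⟨⟨hφ, hψ⟩, ⟨mem_univ _, hw.2.1⟩, mem_univ _, hw.2.2⟩
          · intro w hw w' hw' hww
            rw [mem_coe, mem_filter] at hw hw'
            obtain ⟨⟨hφ, hψ⟩, ⟨a1, a2, a3, a4⟩, b1, b2, b3, b4⟩ := hW' w hw.1
            obtain ⟨⟨hφ', hψ'⟩, ⟨a1', a2', a3', a4'⟩, b1', b2', b3', b4'⟩ := hW' w' hw'.1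
            obtain ⟨w1, z1, z2⟩ := w
            obtain ⟨w1', z1', z2'⟩ := w'
            simp only [Prod.mk.injEq] at hww
            obtain ⟨h1, h2, h3⟩ := hww
            subst h1
            have e1 := mob_inj (hΦ _ hφ).1 a1 a1' h2
            have e2 := mob_inj (hΦ _ hφ).1 b1 b1' h3
            simp only at e1 e2
            rw [e1, e2]
      _ ≤ #Φ * #Φ * (2 * 2) := by
          rw [card_product, card_product, card_product]
          exact Nat.mul_le_mul_left _ (Nat.mul_le_mul (card_fx hr) (card_fx hr))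

end MPcb27.PH
end

section
/-!
# MP_cb27ba_nt, project PH: partition into a part off lines and few parts in lines
-/
set_option autoImplicit false

namespace MPcb27.PH

open Finset Matrix Filter
open MPcb27.TU MPcb27.TW MPcb27.LN MPcb27.MB MPcb27.PG

/-- a line through an invertible matrix is a coset of a centralizer -/
theorem line_comm {p : ℕ} [Fact p.Prime] (W : Submodule (ZMod p) (M2 p))
    (hW : Module.finrank (ZMod p) W = 2) (g : M2 p) (hg : g ∈ W) (hdet : g.det ≠ 0) :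
    ∃ r₀ r₁ : M2 p, NonSc r₁ ∧ ∀ φ ∈ W, φ * r₀ = r₁ * φ := by
  have hg0 : g ≠ 0 := by
    rintro rfl
    exact hdet (by simp)
  -- a second element
  have hex : ∃ y ∈ W, y ∉ Submodule.span (ZMod p) ({g} : Set (M2 p)) := by
    by_contra hcon
    push Not at hcon
    have h1 : W ≤ Submodule.span (ZMod p) ({g} : Set (M2 p)) := hcon
    have h2 := Submodule.finrank_mono h1
    rw [hW, finrank_span_singleton hg0] at h2
    omega
  obtain ⟨y, hyW, hy⟩ := hex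
  have hspan : ∀ φ ∈ W, ∃ a b : ZMod p, φ = a • g + b • y := by
    have hle : Submodule.span (ZMod p) ({g, y} : Set (M2 p)) ≤ W := by
      rw [Submodule.span_le]
      intro x hx
      rcases hx with rfl | hx
      · exact hg
      · rw [Set.mem_singleton_iff] at hx
        exact hx ▸ hyW
    have hli : LinearIndependent (ZMod p) ![g, y] := by
      rw [LinearIndependent.pair_iff]
      intro s t hst
      have ht : t = 0 := by
        by_contra ht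
        apply hy
        rw [Submodule.mem_span_singleton]
        refine ⟨-(t⁻¹ * s), ?_⟩
        have h3 : t • y = -(s • g) := by
          rw [eq_neg_iff_add_eq_zero, add_comm]
          exact hst
        have h4 : y = t⁻¹ • (t • y) := by rw [smul_smul, inv_mul_cancel₀ ht, one_smul]
        rw [h4, h3, smul_neg, smul_smul, neg_smul]
      subst ht
      rw [zero_smul, add_zero] at hst
      exact ⟨(smul_eq_zero.mp hst).resolve_right hg0, rfl⟩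
    have hrank : Module.finrank (ZMod p) (Submodule.span (ZMod p) ({g, y} : Set (M2 p))) = 2 := by
      have h5 := finrank_span_eq_card hli
      have h6 : Set.range ![g, y] = ({g, y} : Set (M2 p)) := by
        simp [Matrix.range_cons, Set.pair_comm]
      rw [h6] at h5
      simpa using h5
    have heq := Submodule.eq_of_le_of_finrank_eq hle (by rw [hrank, hW])
    intro φ hφ
    rw [← heq, Submodule.mem_span_pair] at hφ
    obtain ⟨a, b, hab⟩ := hφ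
    exact ⟨a, b, hab.symm⟩
  refine ⟨g.adjugate * y, y * g.adjugate, ?_, ?_⟩
  · intro c hc
    apply hy
    rw [Submodule.mem_span_singleton]
    refine ⟨g.det⁻¹ * c, ?_⟩
    have h1 : y * g.adjugate * g = c • g := by rw [hc, smul_mul_assoc, one_mul]
    rw [mul_assoc, Matrix.adjugate_mul, mul_smul_comm, mul_one] at h1
    rw [← smul_smul, ← h1, smul_smul, inv_mul_cancel₀ hdet, one_smul]
  · intro φ hφ
    obtain ⟨a, b, rfl⟩ := hspan φ hφ
    have h1 : g * (g.adjugate * y) = g.det • y := by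
      rw [← mul_assoc, Matrix.mul_adjugate, smul_mul_assoc, one_mul]
    have h2 : y * g.adjugate * g = g.det • y := by
      rw [mul_assoc, Matrix.adjugate_mul, mul_smul_comm, mul_one]
    rw [add_mul, mul_add, smul_mul_assoc, smul_mul_assoc, mul_smul_comm, mul_smul_comm, h1, h2,
      ← mul_assoc]

/-- there is a nonscalar matrix -/
theorem exists_nonSc (p : ℕ) [Fact p.Prime] : ∃ r : M2 p, NonSc r := by
  refine ⟨fun i j => if i = 0 ∧ j = 1 then 1 else 0, fun c hc => ?_⟩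
  have h1 := congrFun (congrFun hc 0) 1
  simp at h1

theorem specPLT : SpecPLT := by
  intro δ₁ hδ
  -- the size of `p`
  have hev : ∀ᶠ x : ℝ in atTop, 4 * Real.log x + 1 < x ^ δ₁ := by
    have h1 := (isLittleO_log_rpow_atTop hδ).bound (show (0 : ℝ) < 1 / 8 by norm_num)
    have h2 := (tendsto_rpow_atTop hδ).eventually_gt_atTop 2
    filter_upwards [h1, h2, eventually_ge_atTop 1] with x hx hx2 hx1
    rw [Real.norm_eq_abs, Real.norm_eq_abs, abs_of_nonneg (Real.log_nonneg hx1),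
      abs_of_nonneg (Real.rpow_nonneg (by linarith) _)] at hx
    linarith
  obtain ⟨X, hX⟩ := eventually_atTop.mp hev
  refine ⟨Nat.ceil X + 2, ?_⟩
  intro p _ hp Φ hΦdet
  have hpX : X ≤ (p : ℝ) := (Nat.le_ceil X).trans (by exact_mod_cast (by omega : ⌈X⌉₊ ≤ p))
  have hp2 : (2 : ℝ) ≤ p := by exact_mod_cast (by omega : 2 ≤ p)
  have hp0 : (0 : ℝ) < p := by linarith
  have hlog := hX p hpX
  set ε : ℝ := (p : ℝ) ^ (-δ₁) with hεdef
  have hε0 : 0 < ε := Real.rpow_pos_of_pos hp0 _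
  have hε1 : ε ≤ 1 := Real.rpow_le_one_of_one_le_of_nonpos (by linarith) (by linarith)
  set N : ℕ := ⌊(p : ℝ) ^ (2 * δ₁)⌋₊ with hN
  have hNle : (N : ℝ) ≤ (p : ℝ) ^ (2 * δ₁) := Nat.floor_le (Real.rpow_nonneg hp0.le _)
  have hNge : (p : ℝ) ^ (2 * δ₁) - 1 < N := by
    have := Nat.lt_floor_add_one ((p : ℝ) ^ (2 * δ₁))
    linarith
  have hεN : (p : ℝ) ^ δ₁ - 1 ≤ ε * N := by
    have h1 : ε * ((p : ℝ) ^ (2 * δ₁)) = (p : ℝ) ^ δ₁ := by
      rw [hεdef, ← Real.rpow_add hp0]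
      congr 1
      ring
    have h2 : ε * ((p : ℝ) ^ (2 * δ₁) - 1) ≤ ε * N := mul_le_mul_of_nonneg_left hNge.le hε0.le
    have h3 : ε * ((p : ℝ) ^ (2 * δ₁) - 1) = (p : ℝ) ^ δ₁ - ε := by rw [mul_sub, h1, mul_one]
    linarith
  have hsmall : (1 - ε) ^ N * #Φ < 1 := by
    have h1 : (1 - ε) ^ N ≤ Real.exp (-(ε * N)) := by
      have h2 : 1 - ε ≤ Real.exp (-ε) := by
        have := Real.add_one_le_exp (-ε)
        linarith
      calc (1 - ε) ^ N ≤ Real.exp (-ε) ^ N := pow_le_pow_left₀ (by linarith) h2 N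
        _ = Real.exp (-(ε * N)) := by
          rw [← Real.exp_nat_mul]
          congr 1
          ring
    have h3 : (#Φ : ℝ) ≤ Real.exp (4 * Real.log p) := by
      have h4 : Real.exp (4 * Real.log p) = (p : ℝ) ^ 4 := by
        rw [show (4 : ℝ) * Real.log p = ((4 : ℕ) : ℝ) * Real.log p by norm_num, Real.exp_nat_mul,
          Real.exp_log hp0]
      rw [h4]
      exact card_M2_le Φ
    calc (1 - ε) ^ N * (#Φ : ℝ) ≤ Real.exp (-(ε * N)) * Real.exp (4 * Real.log p) :=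
          mul_le_mul h1 h3 (by positivity) (Real.exp_pos _).le
      _ = Real.exp (-(ε * N) + 4 * Real.log p) := (Real.exp_add _ _).symm
      _ < 1 := by
        rw [Real.exp_lt_one_iff]
        linarith
  classical
  obtain ⟨Φ₀, Q, a1, a2, a3, a4, a5, a6, a7⟩ :=
    greedy (fun (W : Submodule (ZMod p) (M2 p)) (φ : M2 p) => φ ∈ W)
      (fun W => Module.finrank (ZMod p) W = 2) ε hε1 N Φ hsmall
  refine ⟨Φ₀, Q, a1, a2, a3, ?_, a5, fun W hW => ?_, ?_⟩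
  · exact (by exact_mod_cast a4 : ((#Q : ℕ) : ℝ) ≤ N).trans hNle
  · convert a6 W hW
  · intro Ψ hΨ
    obtain ⟨W, hW, h⟩ := a7 Ψ hΨ
    rcases Ψ.eq_empty_or_nonempty with h0 | ⟨g, hg⟩
    · obtain ⟨r, hr⟩ := exists_nonSc p
      exact ⟨r, r, hr, by simp [h0]⟩
    · obtain ⟨r₀, r₁, hr, h1⟩ := line_comm W hW g (h g hg) (hΦdet g (a2 Ψ hΨ hg))
      exact ⟨r₀, r₁, hr, fun φ hφ => h1 φ (h φ hφ)⟩

end MPcb27.PH
end

section
/-!
# MP_cb27ba_nt, project PH, POP: popular points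
-/
set_option autoImplicit false

namespace MPcb27.PH

open Finset Matrix
open scoped Pointwise
open MPcb27.TU MPcb27.TW MPcb27.LN MPcb27.MB MPcb27.PG MPcb27.PG.FINPG

namespace POP

open scoped Classical

variable {p : ℕ} [Fact p.Prime]

/-- indicator of `φ z ∈ B` -/
noncomputable def ii (B : Finset (ZMod p)) (φ : M2 p) (z : ZMod p) : ℝ :=
  if den φ z ≠ 0 ∧ mob φ z ∈ B then 1 else 0

lemma ii_nonneg (B : Finset (ZMod p)) (φ : M2 p) (z : ZMod p) : 0 ≤ ii B φ z := by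
  unfold ii; split_ifs <;> norm_num

lemma ii_le (B : Finset (ZMod p)) (φ : M2 p) (z : ZMod p) : ii B φ z ≤ 1 := by
  unfold ii; split_ifs <;> norm_num

/-- number of `ψ` with `ψ z ∈ B` -/
noncomputable def rr (Ψ : Finset (M2 p)) (B : Finset (ZMod p)) (z : ZMod p) : ℝ :=
  ∑ φ ∈ Ψ, ii B φ z

lemma rr_nonneg (Ψ : Finset (M2 p)) (B : Finset (ZMod p)) (z : ZMod p) : 0 ≤ rr Ψ B z :=
  sum_nonneg fun _ _ => ii_nonneg _ _ _

lemma rr_le (Ψ : Finset (M2 p)) (B : Finset (ZMod p)) (z : ZMod p) : rr Ψ B z ≤ #Ψ := by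
  unfold rr
  calc ∑ φ ∈ Ψ, ii B φ z ≤ ∑ _φ ∈ Ψ, (1 : ℝ) := sum_le_sum fun _ _ => ii_le _ _ _
    _ = #Ψ := by rw [sum_const, nsmul_eq_mul, mul_one]

lemma sum_ii {B : Finset (ZMod p)} {φ : M2 p} (hφ : φ.det ≠ 0) : ∑ z, ii B φ z ≤ #B := by
  have h := (card_pre hφ B).2
  have e : ∑ z, ii B φ z = #(pre φ B) := by
    unfold ii pre
    rw [sum_boole]
  rw [e]
  exact_mod_cast h

lemma sum_rr {Ψ : Finset (M2 p)} (hΨ : ∀ φ ∈ Ψ, φ.det ≠ 0) (B : Finset (ZMod p)) :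
    ∑ z, rr Ψ B z ≤ #Ψ * #B := by
  unfold rr
  rw [sum_comm]
  calc ∑ φ ∈ Ψ, ∑ z, ii B φ z ≤ ∑ _φ ∈ Ψ, (#B : ℝ) := sum_le_sum fun φ h => sum_ii (hΨ φ h)
    _ = _ := by rw [sum_const, nsmul_eq_mul]

lemma nam_le {Ψ : Finset (M2 p)} (hΨ : ∀ φ ∈ Ψ, φ.det ≠ 0) (B : Finset (ZMod p)) :
    (NAM Ψ B : ℝ) ≤ #B * ∑ z, rr Ψ B z ^ 2 := by
  have e1 : ∀ φ ψ : M2 p, (#(univ.filter fun z : ZMod p => den φ z ≠ 0 ∧ mob φ z ∈ B ∧
      den ψ z ≠ 0 ∧ mob ψ z ∈ B) : ℝ) = ∑ z, ii B φ z * ii B ψ z := by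
    intro φ ψ
    rw [← sum_boole]
    refine sum_congr rfl fun z _ => ?_
    unfold ii
    by_cases h1 : den φ z ≠ 0 ∧ mob φ z ∈ B
    · by_cases h2 : den ψ z ≠ 0 ∧ mob ψ z ∈ B
      · rw [if_pos h1, if_pos h2, if_pos ⟨h1.1, h1.2, h2⟩, mul_one]
      · rw [if_neg h2, if_neg (fun h => h2 h.2.2), mul_zero]
    · rw [if_neg h1, if_neg (fun h => h1 ⟨h.1, h.2.1⟩), zero_mul]
  have e2 : (NAM Ψ B : ℝ) = ∑ φ ∈ Ψ, ∑ ψ ∈ Ψ, (∑ z, ii B φ z * ii B ψ z) ^ 2 := by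
    unfold NAM
    push_cast
    refine sum_congr rfl fun φ _ => sum_congr rfl fun ψ _ => ?_
    rw [← e1]
  have e3 : ∑ z, rr Ψ B z ^ 2 = ∑ φ ∈ Ψ, ∑ ψ ∈ Ψ, ∑ z, ii B φ z * ii B ψ z := by
    have : ∀ z, rr Ψ B z ^ 2 = ∑ φ ∈ Ψ, ∑ ψ ∈ Ψ, ii B φ z * ii B ψ z := by
      intro z
      unfold rr
      rw [sq, sum_mul_sum]
    simp only [this]
    rw [sum_comm]
    refine sum_congr rfl fun φ _ => ?_
    rw [sum_comm]
  rw [e2, e3, mul_sum]
  refine sum_le_sum fun φ hφ => ?_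
  rw [mul_sum]
  refine sum_le_sum fun ψ _ => ?_
  rw [sq]
  refine mul_le_mul_of_nonneg_right ?_ (sum_nonneg fun z _ =>
    mul_nonneg (ii_nonneg _ _ _) (ii_nonneg _ _ _))
  refine le_trans (sum_le_sum fun z _ => ?_) (sum_ii (hΨ φ hφ))
  exact mul_le_of_le_one_right (ii_nonneg _ _ _) (ii_le _ _ _)

/-- double counting -/
lemma sum_rp_B (Ψ : Finset (M2 p)) (Z B : Finset (ZMod p)) :
    ∑ b ∈ B, (rp Ψ Z b : ℝ) = ∑ z ∈ Z, rr Ψ B z := by
  have e1 : ∀ b, (rp Ψ Z b : ℝ) = ∑ z ∈ Z, ∑ φ ∈ Ψ, if den φ z ≠ 0 ∧ mob φ z = b then 1 else 0 := by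
    intro b
    unfold rp
    rw [← sum_boole, sum_product, sum_comm]
  simp only [e1]
  rw [sum_comm]
  refine sum_congr rfl fun z _ => ?_
  rw [sum_comm]
  unfold rr
  refine sum_congr rfl fun φ _ => ?_
  unfold ii
  by_cases h : den φ z ≠ 0
  · simp only [h, true_and, ne_eq, not_false_eq_true]
    rw [sum_ite_eq]
  · simp [h]

end POP

open scoped Classical in
/-- **POP** -/
theorem specPOP : SpecPOP := by
  intro p _ Ψ B lam hΨ hne hB hlam h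
  have hP : (0 : ℝ) < #Ψ := by exact_mod_cast hne.card_pos
  have hB0 : (0 : ℝ) < #B := by exact_mod_cast hB.card_pos
  have h1 := POP.nam_le hΨ B
  have h2 := POP.sum_rr hΨ B
  have h3 : 2 * lam * ((#Ψ : ℝ) ^ 2 * #B) ≤ ∑ z, POP.rr Ψ B z ^ 2 := by
    have h4 : #B * (2 * lam * ((#Ψ : ℝ) ^ 2 * #B)) ≤ #B * ∑ z, POP.rr Ψ B z ^ 2 := by
      calc #B * (2 * lam * ((#Ψ : ℝ) ^ 2 * #B)) = 2 * lam * ((#Ψ : ℝ) ^ 2 * (#B : ℝ) ^ 2) := by
            ring
        _ ≤ _ := h.trans h1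
    exact le_of_mul_le_mul_left h4 hB0
  set Z := univ.filter (fun z : ZMod p => lam * #Ψ ≤ POP.rr Ψ B z) with hZ
  have h5 : ∑ z ∈ univ.filter (fun z : ZMod p => ¬ lam * #Ψ ≤ POP.rr Ψ B z), POP.rr Ψ B z ^ 2 ≤
      lam * (#Ψ : ℝ) ^ 2 * #B := by
    calc ∑ z ∈ univ.filter (fun z : ZMod p => ¬ lam * #Ψ ≤ POP.rr Ψ B z), POP.rr Ψ B z ^ 2
        ≤ ∑ z ∈ univ.filter (fun z : ZMod p => ¬ lam * #Ψ ≤ POP.rr Ψ B z),
            lam * #Ψ * POP.rr Ψ B z := by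
          refine sum_le_sum fun z hz => ?_
          have h6 := (mem_filter.1 hz).2
          rw [sq]
          exact mul_le_mul_of_nonneg_right (not_le.1 h6).le (POP.rr_nonneg _ _ _)
      _ = lam * #Ψ * ∑ z ∈ univ.filter (fun z : ZMod p => ¬ lam * #Ψ ≤ POP.rr Ψ B z),
            POP.rr Ψ B z := (mul_sum _ _ _).symm
      _ ≤ lam * #Ψ * (#Ψ * #B) := by
          refine mul_le_mul_of_nonneg_left (le_trans ?_ h2) (by positivity)
          exact sum_le_sum_of_subset_of_nonneg (filter_subset _ _) fun _ _ _ =>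
            POP.rr_nonneg _ _ _
      _ = _ := by ring
  have h7 : ∑ z ∈ Z, POP.rr Ψ B z ^ 2 ≤ #Ψ * ∑ z ∈ Z, POP.rr Ψ B z := by
    rw [mul_sum]
    refine sum_le_sum fun z _ => ?_
    rw [sq]
    exact mul_le_mul_of_nonneg_right (POP.rr_le _ _ _) (POP.rr_nonneg _ _ _)
  have h8 := sum_filter_add_sum_filter_not (univ : Finset (ZMod p))
    (fun z => lam * #Ψ ≤ POP.rr Ψ B z) (fun z => POP.rr Ψ B z ^ 2)
  have h9 : lam * #Ψ * #B ≤ ∑ z ∈ Z, POP.rr Ψ B z := by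
    have h10 : #Ψ * (lam * #Ψ * #B) ≤ #Ψ * ∑ z ∈ Z, POP.rr Ψ B z := by
      nlinarith
    exact le_of_mul_le_mul_left h10 hP
  have h11 : ∑ z ∈ Z, POP.rr Ψ B z ≤ #Ψ * #B :=
    (sum_le_sum_of_subset_of_nonneg (subset_univ _) fun _ _ _ => POP.rr_nonneg _ _ _).trans h2
  have h12 : lam * #Ψ * #Z ≤ ∑ z ∈ Z, POP.rr Ψ B z := by
    calc lam * #Ψ * #Z = ∑ _z ∈ Z, lam * #Ψ := by rw [sum_const, nsmul_eq_mul]; ring
      _ ≤ _ := sum_le_sum fun z hz => (mem_filter.1 hz).2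
  have h13 : ∑ z ∈ Z, POP.rr Ψ B z ≤ #Ψ * #Z := by
    calc ∑ z ∈ Z, POP.rr Ψ B z ≤ ∑ _z ∈ Z, (#Ψ : ℝ) := sum_le_sum fun z _ => POP.rr_le _ _ _
      _ = _ := by rw [sum_const, nsmul_eq_mul]; ring
  set B' := B.filter (fun b => lam * #Ψ ≤ 2 * (rp Ψ Z b : ℝ)) with hB'
  have h14 := POP.sum_rp_B Ψ Z B
  have h15 := sum_filter_add_sum_filter_not B (fun b => lam * #Ψ ≤ 2 * (rp Ψ Z b : ℝ))
    (fun b => (rp Ψ Z b : ℝ))
  have h16 : ∑ b ∈ B', (rp Ψ Z b : ℝ) ≤ #Ψ * #B' := by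
    calc ∑ b ∈ B', (rp Ψ Z b : ℝ) ≤ ∑ _b ∈ B', (#Ψ : ℝ) :=
          sum_le_sum fun b _ => by exact_mod_cast rp_le Ψ hΨ Z b
      _ = _ := by rw [sum_const, nsmul_eq_mul]; ring
  have h17 : ∑ b ∈ B.filter (fun b => ¬ lam * #Ψ ≤ 2 * (rp Ψ Z b : ℝ)), (rp Ψ Z b : ℝ) ≤
      lam * #Ψ / 2 * #B := by
    calc ∑ b ∈ B.filter (fun b => ¬ lam * #Ψ ≤ 2 * (rp Ψ Z b : ℝ)), (rp Ψ Z b : ℝ)
        ≤ ∑ _b ∈ B.filter (fun b => ¬ lam * #Ψ ≤ 2 * (rp Ψ Z b : ℝ)), lam * #Ψ / 2 := by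
          refine sum_le_sum fun b hb => ?_
          have h6 := (mem_filter.1 hb).2
          rw [not_le] at h6
          linarith
      _ = lam * #Ψ / 2 * #(B.filter (fun b => ¬ lam * #Ψ ≤ 2 * (rp Ψ Z b : ℝ))) := by
          rw [sum_const, nsmul_eq_mul]; ring
      _ ≤ _ := by
          refine mul_le_mul_of_nonneg_left ?_ (by positivity)
          exact_mod_cast card_le_card (filter_subset _ _)
  refine ⟨Z, B', filter_subset _ _, ?_, ?_, ?_, fun b hb => (mem_filter.1 hb).2⟩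
  · have h18 : #Ψ * (lam * #Z) ≤ #Ψ * (#B : ℝ) := by linarith
    exact le_of_mul_le_mul_left h18 hP
  · have h18 : #Ψ * (lam * #B) ≤ #Ψ * (#Z : ℝ) := by linarith
    exact le_of_mul_le_mul_left h18 hP
  · have h18 : #Ψ * (lam * #B) ≤ #Ψ * (2 * (#B' : ℝ)) := by
      rw [h14] at h15
      linarith
    exact le_of_mul_le_mul_left h18 hP

end MPcb27.PH
end

section
/-!
# MP_cb27ba_nt, project PH: the roles swapped (`specSWP`)
-/
set_option autoImplicit false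
set_option linter.unusedSectionVars false

namespace MPcb27.PH

open Finset Matrix
open scoped Pointwise
open MPcb27.TU MPcb27.TW MPcb27.LN MPcb27.MB MPcb27.PG MPcb27.PG.FINPG

namespace SWP

variable {p : ℕ} [Fact p.Prime]

/-- the vector of a finite point -/
def vp (z : ZMod p) : Fin 2 → ZMod p := ![z, 1]

/-- the cross product -/
def cr (v w : Fin 2 → ZMod p) : ZMod p := v 0 * w 1 - v 1 * w 0

lemma mv (φ : M2 p) (v : Fin 2 → ZMod p) :
    φ *ᵥ v = ![φ 0 0 * v 0 + φ 0 1 * v 1, φ 1 0 * v 0 + φ 1 1 * v 1] := by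
  funext i
  fin_cases i <;> simp [Matrix.mulVec, dotProduct, Fin.sum_univ_two]

lemma ext2 {v w : Fin 2 → ZMod p} (h0 : v 0 = w 0) (h1 : v 1 = w 1) : v = w := by
  funext i
  fin_cases i
  · exact h0
  · exact h1

lemma vec_of {φ : M2 p} {z b : ZMod p} (h : den φ z ≠ 0) (hb : mob φ z = b) :
    φ *ᵥ vp z = den φ z • vp b := by
  have e1 : mob φ z * den φ z = φ 0 0 * z + φ 0 1 := by
    unfold mob
    unfold den at h ⊢
    rw [mul_assoc, inv_mul_cancel₀ h, mul_one]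
  rw [hb] at e1
  refine ext2 ?_ ?_
  · simp only [mv, vp, Pi.smul_apply, Matrix.cons_val_zero, Matrix.cons_val_one, smul_eq_mul]
    linear_combination -e1
  · simp only [mv, vp, Pi.smul_apply, Matrix.cons_val_zero, Matrix.cons_val_one, smul_eq_mul, den]
    ring

lemma of_vec {φ : M2 p} {z b c : ZMod p} (hc : c ≠ 0) (h : φ *ᵥ vp z = c • vp b) :
    den φ z ≠ 0 ∧ mob φ z = b := by
  have e0 := congrFun h 0
  have e1 := congrFun h 1
  simp only [mv, vp, Pi.smul_apply, Matrix.cons_val_zero, Matrix.cons_val_one, smul_eq_mul,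
    mul_one] at e0 e1
  have hd : den φ z = c := e1
  refine ⟨by rw [hd]; exact hc, ?_⟩
  unfold mob
  have : φ 1 0 * z + φ 1 1 = c := e1
  rw [this, e0]
  field_simp

lemma cr_smul (c d : ZMod p) (v w : Fin 2 → ZMod p) : cr (c • v) (d • w) = c * d * cr v w := by
  simp only [cr, Pi.smul_apply, smul_eq_mul]; ring

lemma cr_mul (m : M2 p) (v w : Fin 2 → ZMod p) : cr (m *ᵥ v) (m *ᵥ w) = m.det * cr v w := by
  simp only [cr, mv, Matrix.cons_val_zero, Matrix.cons_val_one, Matrix.det_fin_two]; ring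

/-- matrices commuting with `r` that agree up to a scalar on a vector which is not an eigenvector -/
lemma cyc {r s t : M2 p} {v : Fin 2 → ZMod p} {c : ZMod p} (hv : cr v (r *ᵥ v) ≠ 0)
    (hs : s * r = r * s) (ht : t * r = r * t) (h : t *ᵥ v = c • (s *ᵥ v)) : t = c • s := by
  have h2 : t *ᵥ (r *ᵥ v) = c • (s *ᵥ (r *ᵥ v)) := by
    rw [Matrix.mulVec_mulVec, Matrix.mulVec_mulVec, ht, hs, ← Matrix.mulVec_mulVec, h,
      Matrix.mulVec_smul, Matrix.mulVec_mulVec]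
  generalize r *ᵥ v = u at *
  have key : ∀ i, t i 0 = c * s i 0 ∧ t i 1 = c * s i 1 := by
    intro i
    have a1 := congrFun h i
    have a2 := congrFun h2 i
    simp only [Matrix.mulVec, dotProduct, Fin.sum_univ_two, Pi.smul_apply, smul_eq_mul] at a1 a2
    unfold cr at hv
    constructor
    · have : (t i 0 - c * s i 0) * (v 0 * u 1 - v 1 * u 0) = 0 := by
        linear_combination u 1 * a1 - v 1 * a2
      exact sub_eq_zero.1 ((mul_eq_zero.1 this).resolve_right hv)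
    · have : (t i 1 - c * s i 1) * (v 0 * u 1 - v 1 * u 0) = 0 := by
        linear_combination v 0 * a2 - u 0 * a1
      exact sub_eq_zero.1 ((mul_eq_zero.1 this).resolve_right hv)
  ext i j
  fin_cases j
  · exact (key i).1
  · exact (key i).2

/-- the matrix in `⟨1, r⟩` that maps `z₀` to `y` -/
def Kf (r : M2 p) (z₀ y : ZMod p) : M2 p :=
  cr (vp y) (r *ᵥ vp z₀) • (1 : M2 p) + cr (vp z₀) (vp y) • r

lemma K_comm (r : M2 p) (z₀ y : ZMod p) : Kf r z₀ y * r = r * Kf r z₀ y := by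
  unfold Kf
  rw [add_mul, mul_add, smul_mul_assoc, smul_mul_assoc, mul_smul_comm, mul_smul_comm, one_mul,
    mul_one]

lemma K_vec (r : M2 p) (z₀ y : ZMod p) :
    Kf r z₀ y *ᵥ vp z₀ = cr (vp z₀) (r *ᵥ vp z₀) • vp y := by
  refine ext2 ?_ ?_ <;>
  · simp [Kf, cr, vp]
    ring

lemma K_det (r : M2 p) (z₀ y : ZMod p) :
    (Kf r z₀ y).det = cr (vp z₀) (r *ᵥ vp z₀) * cr (vp y) (r *ᵥ vp y) := by
  simp [Matrix.det_fin_two, Kf, cr, vp]
  ring

/-- at most two finite fixed points -/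
lemma card_D {r : M2 p} (hr : NonSc r) :
    #(univ.filter fun y : ZMod p => cr (vp y) (r *ᵥ vp y) = 0) ≤ 2 := by
  by_contra hcon
  push Not at hcon
  obtain ⟨a, ha, b, hb, c, hc, hab, hac, hbc⟩ := Finset.two_lt_card.1 hcon
  simp only [mem_filter, mem_univ, true_and, cr, mv, vp, Matrix.cons_val_zero,
    Matrix.cons_val_one] at ha hb hc
  have h1 : r 1 0 * (a + b) + (r 1 1 - r 0 0) = 0 := by
    have : (a - b) * (r 1 0 * (a + b) + (r 1 1 - r 0 0)) = 0 := by linear_combination ha - hb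
    exact (mul_eq_zero.1 this).resolve_left (sub_ne_zero.2 hab)
  have h2 : r 1 0 * (a + c) + (r 1 1 - r 0 0) = 0 := by
    have : (a - c) * (r 1 0 * (a + c) + (r 1 1 - r 0 0)) = 0 := by linear_combination ha - hc
    exact (mul_eq_zero.1 this).resolve_left (sub_ne_zero.2 hac)
  have h3 : r 1 0 = 0 := by
    have : r 1 0 * (b - c) = 0 := by linear_combination h1 - h2
    exact (mul_eq_zero.1 this).resolve_right (sub_ne_zero.2 hbc)
  rw [h3] at h1 ha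
  have h4 : r 1 1 = r 0 0 := by linear_combination h1
  have h5 : r 0 1 = 0 := by rw [h4] at ha; linear_combination -ha
  refine hr (r 0 0) ?_
  ext i j
  fin_cases i <;> fin_cases j <;> simp [h3, h4, h5]

/-- a vector parallel to `(x, 0)` in the image: denominators zero -/
lemma den_zero {φ : M2 p} {z : ZMod p} (hφ : φ.det ≠ 0) (h : den φ z = 0) :
    φ *ᵥ vp z = ![(φ *ᵥ vp z) 0, 0] ∧ (φ *ᵥ vp z) 0 ≠ 0 := by
  have h1 : (φ *ᵥ vp z) 1 = 0 := by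
    rw [mv]
    simp only [vp, Matrix.cons_val_zero, Matrix.cons_val_one]
    unfold den at h
    linear_combination h
  refine ⟨ext2 rfl h1, fun h0 => hφ ?_⟩
  have e0 : φ 0 0 * z + φ 0 1 = 0 := by
    rw [mv] at h0
    simpa [vp] using h0
  unfold den at h
  rw [Matrix.det_fin_two]
  linear_combination φ 0 0 * h - φ 1 0 * e0

lemma den_uniq {φ : M2 p} {z y : ZMod p} (hφ : φ.det ≠ 0) (hz : den φ z = 0)
    (hy : den φ y = 0) : z = y := by
  unfold den at hz hy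
  by_contra hne
  have h1 : φ 1 0 = 0 := by
    have : φ 1 0 * (z - y) = 0 := by linear_combination hz - hy
    exact (mul_eq_zero.1 this).resolve_right (sub_ne_zero.2 hne)
  have h2 : φ 1 1 = 0 := by rw [h1] at hz; linear_combination hz
  exact hφ (by rw [Matrix.det_fin_two, h1, h2]; ring)

end SWP

open SWP in
/-- SWP -/
theorem specSWP : SpecSWP := by
  classical
  intro p hp hp2 Ψ r₀ r₁ Z hdet hpr hr hcom hne
  obtain ⟨ψ₀, hψ₀⟩ := hne
  have d0 := hdet ψ₀ hψ₀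
  set D : Finset (ZMod p) := univ.filter fun y : ZMod p => cr (vp y) (r₁ *ᵥ vp y) = 0 with hD
  have hDmem : ∀ y, y ∉ D ↔ cr (vp y) (r₁ *ᵥ vp y) ≠ 0 := fun y => by
    rw [hD, mem_filter]; simp
  have hDc : #D ≤ 2 := card_D hr
  -- a point which is not fixed
  obtain ⟨z₀, hz₀⟩ : ∃ z₀ : ZMod p, z₀ ∉ D := by
    by_contra hcon
    push Not at hcon
    have h1 : D = univ := Finset.eq_univ_iff_forall.2 hcon
    rw [h1, Finset.card_univ, ZMod.card] at hDc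
    have h2 := hp.out.two_le
    omega
  have hc0 := (hDmem z₀).1 hz₀
  -- the matrices `t ψ`
  set t : M2 p → M2 p := fun ψ => ψ * ψ₀.adjugate with ht
  have hadj : ψ₀.adjugate * r₁ = r₀ * ψ₀.adjugate := by
    have h1 : ψ₀.adjugate * (ψ₀ * r₀) * ψ₀.adjugate =
        ψ₀.adjugate * (r₁ * ψ₀) * ψ₀.adjugate := by rw [hcom ψ₀ hψ₀]
    rw [← mul_assoc, Matrix.adjugate_mul, smul_mul_assoc, one_mul, mul_assoc, mul_assoc,
      Matrix.mul_adjugate, mul_smul_comm, mul_smul_comm, mul_one, smul_mul_assoc] at h1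
    have h2 := congrArg (fun x => (ψ₀.det)⁻¹ • x) h1
    simp only [smul_smul, inv_mul_cancel₀ d0, one_smul] at h2
    exact h2.symm
  have tcom : ∀ ψ ∈ Ψ, t ψ * r₁ = r₁ * t ψ := fun ψ hψ => by
    simp only [ht]
    rw [mul_assoc, hadj, ← mul_assoc, hcom ψ hψ, mul_assoc]
  have tdet : ∀ ψ ∈ Ψ, (t ψ).det ≠ 0 := fun ψ hψ => by
    simp only [ht]
    rw [Matrix.det_mul, Matrix.det_adjugate]
    simpa using mul_ne_zero (hdet ψ hψ) (by simpa using d0)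
  have tuniq : ∀ ψ ∈ Ψ, ∀ ψ' ∈ Ψ, ∀ c : ZMod p, t ψ' = c • t ψ → ψ' = ψ := by
    intro ψ hψ ψ' hψ' c h
    have h1 : t ψ' * ψ₀ = (c • t ψ) * ψ₀ := by rw [h]
    simp only [ht] at h1
    rw [smul_mul_assoc, mul_assoc, mul_assoc, Matrix.adjugate_mul, mul_smul_comm, mul_smul_comm,
      mul_one, mul_one] at h1
    have h2 := congrArg (fun x => (ψ₀.det)⁻¹ • x) h1
    simp only [smul_smul, inv_mul_cancel₀ d0, one_smul] at h2
    refine hpr ψ hψ ψ' hψ' (ψ₀.det⁻¹ * (c * ψ₀.det)) h2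
  have tinj : ∀ ψ ∈ Ψ, ∀ ψ' ∈ Ψ, ∀ (v : Fin 2 → ZMod p) (c : ZMod p), cr v (r₁ *ᵥ v) ≠ 0 →
      t ψ' *ᵥ v = c • (t ψ *ᵥ v) → ψ' = ψ := fun ψ hψ ψ' hψ' v c hv h =>
    tuniq ψ hψ ψ' hψ' c (cyc hv (tcom ψ hψ) (tcom ψ' hψ') h)
  -- one `ψ` with infinite value
  have tinf : ∀ ψ ∈ Ψ, ∀ ψ' ∈ Ψ, den (t ψ) z₀ = 0 → den (t ψ') z₀ = 0 → ψ' = ψ := by
    intro ψ hψ ψ' hψ' h h'
    obtain ⟨a1, a2⟩ := den_zero (tdet ψ hψ) h
    obtain ⟨b1, b2⟩ := den_zero (tdet ψ' hψ') h'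
    refine tinj ψ hψ ψ' hψ' (vp z₀) ((t ψ' *ᵥ vp z₀) 0 * ((t ψ *ᵥ vp z₀) 0)⁻¹) hc0 ?_
    rw [b1]
    conv_rhs => rw [a1]
    refine ext2 ?_ ?_
    · simp only [Matrix.cons_val_zero, Pi.smul_apply, smul_eq_mul]
      rw [mul_assoc, inv_mul_cancel₀ a2, mul_one]
    · simp
  have tfin : ∀ ψ ∈ Ψ, ∀ ψ' ∈ Ψ, den (t ψ) z₀ ≠ 0 → den (t ψ') z₀ ≠ 0 →
      mob (t ψ) z₀ = mob (t ψ') z₀ → ψ' = ψ := by
    intro ψ hψ ψ' hψ' h h' he
    refine tinj ψ hψ ψ' hψ' (vp z₀) (den (t ψ') z₀ * (den (t ψ) z₀)⁻¹) hc0 ?_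
    rw [vec_of h rfl, vec_of h' rfl, he, smul_smul, mul_assoc, inv_mul_cancel₀ h, mul_one]
  -- the sets
  set C : Finset (ZMod p) := (Ψ.filter fun ψ => den (t ψ) z₀ ≠ 0).image fun ψ => mob (t ψ) z₀
    with hC
  set Y : Finset (ZMod p) := ((Z.filter fun z => den ψ₀ z ≠ 0).image (mob ψ₀)).filter
    (fun y => y ∉ D) with hY
  have hYD : ∀ y ∈ Y, cr (vp y) (r₁ *ᵥ vp y) ≠ 0 := fun y hy =>
    (hDmem y).1 (mem_filter.1 hy).2
  have Kinj : ∀ y y' : ZMod p, ∀ c : ZMod p, Kf r₁ z₀ y' = c • Kf r₁ z₀ y → y' = y := by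
    intro y y' c h
    have h1 : Kf r₁ z₀ y' *ᵥ vp z₀ = (c • Kf r₁ z₀ y) *ᵥ vp z₀ := by rw [h]
    rw [Matrix.smul_mulVec, K_vec, K_vec, smul_smul] at h1
    have e0 := congrFun h1 0
    have e1 := congrFun h1 1
    simp only [vp, Pi.smul_apply, Matrix.cons_val_zero, Matrix.cons_val_one, smul_eq_mul,
      mul_one] at e0 e1
    rw [← e1] at e0
    exact mul_left_cancel₀ hc0 e0
  refine ⟨Y.image (Kf r₁ z₀), C, D, hDc, ?_, ?_, ?_, ?_, ?_, ?_, ?_⟩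
  · intro k hk
    obtain ⟨y, hy, rfl⟩ := mem_image.1 hk
    refine ⟨?_, K_comm _ _ _⟩
    rw [K_det]
    exact mul_ne_zero hc0 (hYD y hy)
  · intro k hk k' hk' c h
    obtain ⟨y, hy, rfl⟩ := mem_image.1 hk
    obtain ⟨y', hy', rfl⟩ := mem_image.1 hk'
    rw [Kinj y y' c h]
  · exact card_image_le.trans ((card_filter_le _ _).trans (card_image_le.trans
      (card_filter_le _ _)))
  · have h1 : #(Y.image (Kf r₁ z₀)) = #Y := by
      refine card_image_of_injOn fun y _ y' _ h => ?_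
      exact (Kinj y y' 1 (by rw [one_smul]; exact h.symm)).symm
    have h2 : #((Z.filter fun z => den ψ₀ z ≠ 0).image (mob ψ₀)) =
        #(Z.filter fun z => den ψ₀ z ≠ 0) := by
      refine card_image_of_injOn fun z hz z' hz' h => ?_
      exact mob_inj d0 (mem_filter.1 hz).2 (mem_filter.1 hz').2 h
    have h3 : #((Z.filter fun z => den ψ₀ z ≠ 0).image (mob ψ₀)) ≤ #Y + #D := by
      rw [hY, ← Finset.card_filter_add_card_filter_not (s := (Z.filter fun z =>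
        den ψ₀ z ≠ 0).image (mob ψ₀)) (fun y => y ∉ D)]
      refine Nat.add_le_add_left (card_le_card fun y hy => ?_) _
      have := (mem_filter.1 hy).2
      push Not at this
      exact this
    have h4 : #(Z.filter fun z => ¬ den ψ₀ z ≠ 0) ≤ 1 := by
      refine Finset.card_le_one.2 fun z hz z' hz' => ?_
      have e1 := (mem_filter.1 hz).2
      have e2 := (mem_filter.1 hz').2
      push Not at e1 e2
      exact den_uniq d0 e1 e2
    have h5 := Finset.card_filter_add_card_filter_not (s := Z) (fun z => den ψ₀ z ≠ 0)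
    omega
  · exact card_image_le.trans (card_filter_le _ _)
  · have h1 : #C = #(Ψ.filter fun ψ => den (t ψ) z₀ ≠ 0) := by
      refine card_image_of_injOn fun ψ h ψ' h' he => ?_
      obtain ⟨a1, a2⟩ := mem_filter.1 h
      obtain ⟨b1, b2⟩ := mem_filter.1 h'
      exact (tfin ψ a1 ψ' b1 a2 b2 he).symm
    have h2 : #(Ψ.filter fun ψ => ¬ den (t ψ) z₀ ≠ 0) ≤ 1 := by
      refine Finset.card_le_one.2 fun ψ h ψ' h' => ?_
      obtain ⟨a1, a2⟩ := mem_filter.1 h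
      obtain ⟨b1, b2⟩ := mem_filter.1 h'
      push Not at a2 b2
      exact (tinf ψ a1 ψ' b1 a2 b2).symm
    have h3 := Finset.card_filter_add_card_filter_not (s := Ψ) (fun ψ => den (t ψ) z₀ ≠ 0)
    omega
  · intro b hb
    have hb' := (hDmem b).1 hb
    -- `t ψ (ψ₀ z) = det ψ₀ ψ z`
    have tz : ∀ ψ : M2 p, ∀ z : ZMod p, t ψ *ᵥ (ψ₀ *ᵥ vp z) = ψ₀.det • (ψ *ᵥ vp z) := by
      intro ψ z
      simp only [ht]
      rw [Matrix.mulVec_mulVec, mul_assoc, Matrix.adjugate_mul, mul_smul_comm, mul_one,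
        Matrix.smul_mulVec]
    -- the vector `ψ₀ z` is not an eigenvector
    have wz : ∀ ψ ∈ Ψ, ∀ z : ZMod p, den ψ z ≠ 0 → mob ψ z = b →
        cr (ψ₀ *ᵥ vp z) (r₁ *ᵥ (ψ₀ *ᵥ vp z)) ≠ 0 := by
      intro ψ hψ z h1 h2 h3
      have h4 : cr (t ψ *ᵥ (ψ₀ *ᵥ vp z)) (r₁ *ᵥ (t ψ *ᵥ (ψ₀ *ᵥ vp z))) = 0 := by
        have h6 : r₁ *ᵥ (t ψ *ᵥ (ψ₀ *ᵥ vp z)) = t ψ *ᵥ (r₁ *ᵥ (ψ₀ *ᵥ vp z)) := by
          generalize ψ₀ *ᵥ vp z = w
          rw [Matrix.mulVec_mulVec, Matrix.mulVec_mulVec, tcom ψ hψ]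
        rw [h6, cr_mul, h3, mul_zero]
      rw [tz, vec_of h1 h2, smul_smul, Matrix.mulVec_smul, cr_smul] at h4
      have h5 : ψ₀.det * den ψ z ≠ 0 := mul_ne_zero d0 h1
      exact mul_ne_zero (mul_ne_zero h5 h5) hb' h4
    set S := (Ψ ×ˢ Z).filter (fun x => den x.1 x.2 ≠ 0 ∧ mob x.1 x.2 = b) with hS
    have hrp : rp Ψ Z b = #S := rfl
    have hsub : S ⊆ ((S.filter fun x => den (t x.1) z₀ = 0) ∪
        (S.filter fun x => den ψ₀ x.2 = 0)) ∪
        (S.filter fun x => den (t x.1) z₀ ≠ 0 ∧ den ψ₀ x.2 ≠ 0) := by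
      intro x hx
      by_cases h1 : den (t x.1) z₀ = 0
      · exact mem_union_left _ (mem_union_left _ (mem_filter.2 ⟨hx, h1⟩))
      · by_cases h2 : den ψ₀ x.2 = 0
        · exact mem_union_left _ (mem_union_right _ (mem_filter.2 ⟨hx, h2⟩))
        · exact mem_union_right _ (mem_filter.2 ⟨hx, h1, h2⟩)
    have hs1 := card_le_card hsub
    have hs2 := card_union_le ((S.filter fun x => den (t x.1) z₀ = 0) ∪
        (S.filter fun x => den ψ₀ x.2 = 0))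
        (S.filter fun x => den (t x.1) z₀ ≠ 0 ∧ den ψ₀ x.2 ≠ 0)
    have hs3 := card_union_le (S.filter fun x => den (t x.1) z₀ = 0)
        (S.filter fun x => den ψ₀ x.2 = 0)
    have h1 : #(S.filter fun x => den (t x.1) z₀ = 0) ≤ 1 := by
      refine Finset.card_le_one.2 fun x hx x' hx' => ?_
      obtain ⟨a1, a2⟩ := mem_filter.1 hx
      obtain ⟨b1, b2⟩ := mem_filter.1 hx'
      obtain ⟨a3, a4, a5⟩ := mem_filter.1 a1
      obtain ⟨b3, b4, b5⟩ := mem_filter.1 b1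
      have e1 : x'.1 = x.1 := tinf x.1 (mem_product.1 a3).1 x'.1 (mem_product.1 b3).1 a2 b2
      refine Prod.ext e1.symm ?_
      rw [e1] at b4 b5
      exact mob_inj (hdet _ (mem_product.1 a3).1) a4 b4 (a5.trans b5.symm)
    have h2 : #(S.filter fun x => den ψ₀ x.2 = 0) ≤ 1 := by
      refine Finset.card_le_one.2 fun x hx x' hx' => ?_
      obtain ⟨a1, a2⟩ := mem_filter.1 hx
      obtain ⟨b1, b2⟩ := mem_filter.1 hx'
      obtain ⟨a3, a4, a5⟩ := mem_filter.1 a1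
      obtain ⟨b3, b4, b5⟩ := mem_filter.1 b1
      have e1 : x.2 = x'.2 := den_uniq d0 a2 b2
      rw [← e1] at b4 b5
      refine Prod.ext (Eq.symm ?_) e1
      refine tinj x.1 (mem_product.1 a3).1 x'.1 (mem_product.1 b3).1 (ψ₀ *ᵥ vp x.2)
        (den x'.1 x.2 * (den x.1 x.2)⁻¹) (wz x.1 (mem_product.1 a3).1 x.2 a4 a5) ?_
      rw [tz, tz, vec_of a4 a5, vec_of b4 b5, smul_smul, smul_smul, smul_smul]
      congr 1
      field_simp
    have h3 : #(S.filter fun x => den (t x.1) z₀ ≠ 0 ∧ den ψ₀ x.2 ≠ 0) ≤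
        rp (Y.image (Kf r₁ z₀)) C b := by
      unfold rp
      refine card_le_card_of_injOn (fun x => (Kf r₁ z₀ (mob ψ₀ x.2), mob (t x.1) z₀)) ?_ ?_
      · intro x hx
        obtain ⟨a1, a2, a6⟩ := mem_filter.1 (Finset.mem_coe.1 hx)
        obtain ⟨a3, a4, a5⟩ := mem_filter.1 a1
        obtain ⟨q1, q2⟩ := mem_product.1 a3
        have hw := wz x.1 q1 x.2 a4 a5
        have hyD : mob ψ₀ x.2 ∉ D := by
          rw [hDmem]
          intro h0
          rw [vec_of a6 rfl, Matrix.mulVec_smul, cr_smul, h0, mul_zero] at hw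
          exact hw rfl
        have e4 := K_vec r₁ z₀ (mob ψ₀ x.2)
        have ec : Kf r₁ z₀ (mob ψ₀ x.2) * t x.1 = t x.1 * Kf r₁ z₀ (mob ψ₀ x.2) :=
          comm_comm hr (K_comm _ _ _) (tcom x.1 q1)
        have e5 : den (t x.1) z₀ • (Kf r₁ z₀ (mob ψ₀ x.2) *ᵥ vp (mob (t x.1) z₀)) =
            cr (vp z₀) (r₁ *ᵥ vp z₀) • (t x.1 *ᵥ vp (mob ψ₀ x.2)) := by
          rw [← Matrix.mulVec_smul, ← vec_of a2 rfl, Matrix.mulVec_mulVec, ec,
            ← Matrix.mulVec_mulVec, e4, Matrix.mulVec_smul]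
        have e6 : den ψ₀ x.2 • (t x.1 *ᵥ vp (mob ψ₀ x.2)) =
            (ψ₀.det * den x.1 x.2) • vp b := by
          rw [← Matrix.mulVec_smul, ← vec_of a6 rfl, tz, vec_of a4 a5, smul_smul]
        have e7 : Kf r₁ z₀ (mob ψ₀ x.2) *ᵥ vp (mob (t x.1) z₀) =
            ((den (t x.1) z₀)⁻¹ * cr (vp z₀) (r₁ *ᵥ vp z₀) * (den ψ₀ x.2)⁻¹ *
              (ψ₀.det * den x.1 x.2)) • vp b := by
          have f1 : t x.1 *ᵥ vp (mob ψ₀ x.2) =
              ((den ψ₀ x.2)⁻¹ * (ψ₀.det * den x.1 x.2)) • vp b := by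
            rw [mul_smul, ← e6, smul_smul, inv_mul_cancel₀ a6, one_smul]
          have f2 : Kf r₁ z₀ (mob ψ₀ x.2) *ᵥ vp (mob (t x.1) z₀) =
              (den (t x.1) z₀)⁻¹ • (cr (vp z₀) (r₁ *ᵥ vp z₀) •
                (t x.1 *ᵥ vp (mob ψ₀ x.2))) := by
            rw [← e5, smul_smul, inv_mul_cancel₀ a2, one_smul]
          rw [f2, f1, smul_smul, smul_smul]
          congr 1
          ring
        have e8 : (den (t x.1) z₀)⁻¹ * cr (vp z₀) (r₁ *ᵥ vp z₀) * (den ψ₀ x.2)⁻¹ *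
            (ψ₀.det * den x.1 x.2) ≠ 0 :=
          mul_ne_zero (mul_ne_zero (mul_ne_zero (inv_ne_zero a2) hc0) (inv_ne_zero a6))
            (mul_ne_zero d0 a4)
        refine Finset.mem_coe.2 (mem_filter.2 ⟨mem_product.2 ⟨?_, ?_⟩, of_vec e8 e7⟩)
        · exact mem_image_of_mem _ (mem_filter.2 ⟨mem_image_of_mem _
            (mem_filter.2 ⟨q2, a6⟩), hyD⟩)
        · exact mem_image.2 ⟨x.1, mem_filter.2 ⟨q1, a2⟩, rfl⟩
      · intro x hx x' hx' he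
        obtain ⟨a1, a2, a6⟩ := mem_filter.1 (Finset.mem_coe.1 hx)
        obtain ⟨a3, a4, a5⟩ := mem_filter.1 a1
        obtain ⟨b1, b2, b6⟩ := mem_filter.1 (Finset.mem_coe.1 hx')
        obtain ⟨b3, b4, b5⟩ := mem_filter.1 b1
        simp only [Prod.mk.injEq] at he
        have e1 : x'.1 = x.1 := tfin x.1 (mem_product.1 a3).1 x'.1 (mem_product.1 b3).1 a2 b2 he.2
        have e2 : mob ψ₀ x.2 = mob ψ₀ x'.2 :=
          Kinj (mob ψ₀ x'.2) (mob ψ₀ x.2) 1 (by rw [one_smul]; exact he.1)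
        exact Prod.ext e1.symm (mob_inj d0 a6 b6 e2)
    rw [hrp]
    omega

end MPcb27.PH
end

section
/-!
# MP_cb27ba_nt, project PH: assembly

Arbitrary families of Moebius maps, also abelian ones, against an arbitrary set.
-/
set_option autoImplicit false

namespace MPcb27.PH

/-- one abelian family -/
theorem lt : SpecLT := specLT (PG.finalAM TW.mom2) specEXH specPOP specSWP specNET

/-- THEOREM PH -/
theorem theoremPH : FinalPH := finalPH PG.theoremPG lt specPLT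

end MPcb27.PH
end
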