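import Pool.Agent.Lib.MP_cb27ba_nt.PG.Spec
import Pool.Agent.Lib.MP_cb27ba_nt.PG.All

/-!
# MP_cb27ba_nt, project PH (families of Moebius maps, also abelian ones): exact statements

THEOREM PH (`FinalPH`): theorem A for EVERY set `Φ` of Moebius maps with at least `p ^ δ` elements and
EVERY set `C` with at least `p ^ δ` elements; for a group `T` of Moebius maps commuting with a nonscalar
`r₁` (additive, multiplicative, ... group) such that a coset of `T` contains more than `p ^ (-δ) #Φ`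
elements of `Φ`, the set `A` must not have nearly maximal `T`-energy. Contains `FinalPG` (no such `T`).

`FINPG.rp Ψ C a` = number of `(φ, c) ∈ Ψ × C` with `φ c = a`.

Notation in the proofs: `T` = matrices commuting with `r₁`, i.e. (`comm_span`) the invertible elements
of `⟨1, r₁⟩`. A finite point `y` is FIXED if `(y, 1)` is an eigenvector of `r₁`; at most two finite
fixed points. If `v` is not an eigenvector of `r₁`, then for every `w ≠ 0` there is exactly one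
`k ∈ ⟨1, r₁⟩` with `k v = w`, and `k` is invertible iff `w` is not an eigenvector.
-/

set_option autoImplicit false

namespace MPcb27.PH

open Finset Matrix
open scoped Pointwise
open MPcb27.TU MPcb27.TW MPcb27.LN MPcb27.MB MPcb27.PG MPcb27.PG.FINPG

/-- `t` maps the finite point `a` to the finite point `b` -/
def mp {p : ℕ} (t : M2 p) (a b : ZMod p) : Prop := den t a ≠ 0 ∧ mob t a = b

open scoped Classical in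
/-- the `T`-energy: the number of quadruples in `A` such that some `t` commuting with `r` maps the
first element to the second and the third to the fourth -/
noncomputable def ET {p : ℕ} (r : M2 p) (A : Finset (ZMod p)) : ℕ :=
  #(((A ×ˢ A) ×ˢ (A ×ˢ A)).filter fun q => ∃ t : M2 p, t.det ≠ 0 ∧ t * r = r * t ∧
    mp t q.1.1 q.1.2 ∧ mp t q.2.1 q.2.2)

/-- EXH (exhaustion). Let `U ⊆ B` be of maximal cardinality with `NB χ A U √(ρ S #U)` (`U = ∅` is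
admissible). If `B \ U` is nonempty with at least `ε #B` elements, take `B''` in it: for disjoint
`U`, `V` with this property `U ∪ V` has it (`√u x + √v y ≤ √(u + v) √(x² + y²)`), a contradiction.
Otherwise the rest is trivial (`P1.nb_triv`): `√(#A #(B \ U)) ≤ √(ε S #B)`. -/
def SpecEXH : Prop :=
  ∀ (p : ℕ) [Fact p.Prime] (χ : MulChar (ZMod p) ℂ) (A B : Finset (ZMod p)) (S ρ ε : ℝ),
    (#A : ℝ) ≤ S → 0 ≤ ρ → 0 ≤ ε →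
    (∀ B' : Finset (ZMod p), B' ⊆ B → B'.Nonempty → ε * #B ≤ #B' →
      ∃ B'' : Finset (ZMod p), B'' ⊆ B' ∧ B''.Nonempty ∧
        NB χ A B'' (Real.sqrt (ρ * S * #B''))) →
    NB χ A B (Real.sqrt ((ρ + ε) * S * #B))

/-- POP (popular points). `r z = #{ψ ∈ Ψ : ψ z ∈ B}` (finite points). `∑_z r z = ∑_ψ #{z : ψ z ∈ B}
≤ #Ψ #B`; `∑_z r z ^ 2 = ∑_{φ,ψ} N(φ, ψ)`, `N(φ, ψ) = #{z : φ z ∈ B, ψ z ∈ B} ≤ #B`, so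
`NAM Ψ B = ∑ N ^ 2 ≤ #B ∑_z r z ^ 2`, hence `∑ r² ≥ 2 lam #Ψ² #B`. `Z = {z : lam #Ψ ≤ r z}`: the other
`z` give at most `lam #Ψ ∑ r ≤ lam #Ψ² #B`, so `∑_{z ∈ Z} r z ≥ lam #Ψ #B`. Then
`lam #Ψ #Z ≤ ∑ r ≤ #Ψ #B` and `#Z #Ψ ≥ lam #Ψ #B`. `n b = rp Ψ Z b`, `∑_{b ∈ B} n b = ∑_{z ∈ Z} r z`,
`n b ≤ #Ψ`; `B' = {b ∈ B : lam #Ψ ≤ 2 n b}`: `#Ψ #B' + (lam/2) #Ψ #B ≥ lam #Ψ #B`. -/
def SpecPOP : Prop :=
  ∀ (p : ℕ) [Fact p.Prime] (Ψ : Finset (M2 p)) (B : Finset (ZMod p)) (lam : ℝ),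
    (∀ φ ∈ Ψ, φ.det ≠ 0) → Ψ.Nonempty → B.Nonempty → 0 < lam →
    2 * lam * ((#Ψ : ℝ) ^ 2 * (#B : ℝ) ^ 2) ≤ NAM Ψ B →
    ∃ Z B' : Finset (ZMod p), B' ⊆ B ∧ lam * #Z ≤ #B ∧ lam * #B ≤ #Z ∧ lam * #B ≤ 2 * #B' ∧
      ∀ b ∈ B', lam * #Ψ ≤ 2 * (rp Ψ Z b : ℝ)

/-- SWP (the roles swapped). `ψ₀ ∈ Ψ` fixed, `t_ψ = ψ adj ψ₀` commutes with `r₁` (`ψ₀ r₀ = r₁ ψ₀` gives
`r₀ adj ψ₀ = adj ψ₀ r₁`). `D` = the finite fixed points. `z₀` a finite point which is not fixed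
(`p ≥ 3`). For `z ∈ Z` with `y = ψ₀ z` finite and not fixed: `k_y ∈ ⟨1, r₁⟩` with `k_y z₀ = y`. `Φ` =
the `k_y`, `C = {t_ψ z₀ : ψ ∈ Ψ}`, finite values only. If `ψ z = b`, `b ∉ D`, then
`b = t_ψ y = t_ψ k_y z₀ = k_y (t_ψ z₀)`. Exceptions: `t_ψ z₀ = ∞` (one `ψ`, one `z`), `ψ₀ z = ∞` (one
`z`, and then one `ψ`, as `t_ψ ∞ = b`); `y` is not fixed, since `b` is not. `(ψ, z) ↦ (t_ψ z₀, k_y)` is
injective. -/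
def SpecSWP : Prop :=
  ∀ (p : ℕ) [Fact p.Prime], p ≠ 2 → ∀ (Ψ : Finset (M2 p)) (r₀ r₁ : M2 p) (Z : Finset (ZMod p)),
    (∀ φ ∈ Ψ, φ.det ≠ 0) → (∀ φ ∈ Ψ, ∀ ψ ∈ Ψ, ∀ c : ZMod p, ψ = c • φ → ψ = φ) → NonSc r₁ →
    (∀ φ ∈ Ψ, φ * r₀ = r₁ * φ) → Ψ.Nonempty →
    ∃ (Φ : Finset (M2 p)) (C D : Finset (ZMod p)), #D ≤ 2 ∧
      (∀ t ∈ Φ, t.det ≠ 0 ∧ t * r₁ = r₁ * t) ∧
      (∀ φ ∈ Φ, ∀ ψ ∈ Φ, ∀ c : ZMod p, ψ = c • φ → ψ = φ) ∧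
      #Φ ≤ #Z ∧ #Z ≤ #Φ + 3 ∧ #C ≤ #Ψ ∧ #Ψ ≤ #C + 1 ∧
      ∀ b, b ∉ D → rp Ψ Z b ≤ rp Φ C b + 2

/-- NET. `NAM Φ A = #{(φ, ψ, z₁, z₂) : φ z_i, ψ z_i ∈ A}`; such a quadruple gives
`((φ z₁, ψ z₁), (φ z₂, ψ z₂))` in the set of `ET` (`t = ψ adj φ`). If `φ z₁` or `φ z₂` is not fixed by
`r`, then `t` is determined up to scalars, so `φ` determines `ψ` and `z₁`, `z₂`: at most `#Φ`
quadruples. If both are fixed (at most two values each), then `ψ z_i = φ z_i`: at most `4 #Φ ^ 2`. -/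
def SpecNET : Prop :=
  ∀ (p : ℕ) [Fact p.Prime] (Φ : Finset (M2 p)) (r : M2 p) (A : Finset (ZMod p)), NonSc r →
    (∀ t ∈ Φ, t.det ≠ 0 ∧ t * r = r * t) →
    (∀ φ ∈ Φ, ∀ ψ ∈ Φ, ∀ c : ZMod p, ψ = c • φ → ψ = φ) →
    NAM Φ A ≤ #Φ * ET r A + 4 * #Φ ^ 2

/-- LT (one abelian family). From `FinalAM`, EXH, POP, SWP, NET. `δb = min (δ/2) ...`, `τb` from
`FinalAM δb`; then `δa ≤ τb / 20`, `δ / 20`, `τa` from `FinalAM δa`; `ε = p ^ (-τ₁)`, `τ`, `τ₁ ≤ δa/8`,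
`τa/4`, .... EXH with `S = #Ψ #C / x` (`card_XA`). For `B' ⊆ B`, `#B' ≥ ε #B`: if
`p^(1+δa) NAM Ψ B' ≤ #Ψ² #B'^4`: `part_A`, `B'' = B'`. Otherwise POP with `2 lam = p^(-1-δa) #B'^2`
(`≥ p^(-2 δa)`), SWP, and `FinalAM δb` for `B'' \ D` covered by `Φ''(C'')` with multiplicity
`≥ (lam/4) #Ψ`, against the set `A`: `NAM Φ'' A ≤ #Φ'' ET + 4 #Φ''^2` (NET),
`#Φ'' ≥ lam #B' - 3 ≥ p^(1/2 - 4 δa)`, and `#A^2 ≤ ET r₁ A` (`t = 1`). `NB χ B'' A` gives `NB χ A B''`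
(`χ (-1)`), `#Φ'' #C'' / ((lam/4) #Ψ) ≤ 4 #Z / lam ≤ 4 #B' / lam² ≤ 16 #(B'' \ D) / lam³`. -/
def SpecLT : Prop :=
  ∀ δ : ℝ, 0 < δ → ∃ τ : ℝ, 0 < τ ∧ ∃ P : ℕ, ∀ (p : ℕ) [Fact p.Prime], P ≤ p →
    ∀ (Ψ : Finset (M2 p)) (r₀ r₁ : M2 p) (C A B : Finset (ZMod p)) (x : ℝ),
      (∀ φ ∈ Ψ, φ.det ≠ 0) → (∀ φ ∈ Ψ, ∀ ψ ∈ Ψ, ∀ c : ZMod p, ψ = c • φ → ψ = φ) → NonSc r₁ →
      (∀ φ ∈ Ψ, φ * r₀ = r₁ * φ) → (p : ℝ) ^ δ ≤ #Ψ → (p : ℝ) ^ δ ≤ #C → 0 < x →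
      (∀ a ∈ A, x ≤ (rp Ψ C a : ℝ)) → (p : ℝ) ^ (1 / 2 + δ) * ET r₁ A ≤ (#A : ℝ) ^ 4 →
      (p : ℝ) ^ (1 / 2 - τ) ≤ #B → ∀ χ : MulChar (ZMod p) ℂ, χ ≠ 1 →
        NB χ A B (Real.sqrt ((p : ℝ) ^ (-(2 * τ)) * (#Ψ * #C / x) * #B))

/-- PLT: partition of `Φ` into one part `Φ₀` off lines and few parts in lines (as `PG.specPRT`,
lines instead of point cosets). A 2-dimensional `W` which contains the invertible `g` and `y ∉ ⟨g⟩` is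
in `{φ : φ r₀ = r₁ φ}`, `r₀ = adj g * y`, `r₁ = y * adj g`. -/
def SpecPLT : Prop :=
  ∀ δ₁ : ℝ, 0 < δ₁ → ∃ P : ℕ, ∀ (p : ℕ) [Fact p.Prime], P ≤ p → ∀ Φ : Finset (M2 p),
    (∀ φ ∈ Φ, φ.det ≠ 0) →
    ∃ (Φ₀ : Finset (M2 p)) (Q : Finset (Finset (M2 p))), Φ₀ ⊆ Φ ∧ (∀ Ψ ∈ Q, Ψ ⊆ Φ) ∧
      (∀ φ ∈ Φ, φ ∈ Φ₀ ∨ ∃ Ψ ∈ Q, φ ∈ Ψ) ∧ ((#Q : ℕ) : ℝ) ≤ (p : ℝ) ^ (2 * δ₁) ∧
      (∑ Ψ ∈ Q, #Ψ ≤ #Φ) ∧ OffLinesM δ₁ Φ₀ ∧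
      ∀ Ψ ∈ Q, ∃ r₀ r₁ : M2 p, NonSc r₁ ∧ ∀ φ ∈ Ψ, φ * r₀ = r₁ * φ

/-- THEOREM PH. From `FinalPG`, LT, PLT (as `PG.FINPG.one_q`). `A_q` = the elements of `A` with at
least `m` representations. `Φ₀` by `FinalPG`; the parts `Ψ ∈ Q` with `#Ψ ≤ p^(-δ/2) #Φ`, or with at most
`p^(-δ/8) S` elements `a`, trivially; the others by LT. -/
def FinalPH : Prop :=
  ∀ δ : ℝ, 0 < δ → ∃ τ : ℝ, 0 < τ ∧ ∃ P : ℕ, ∀ (p : ℕ) [Fact p.Prime], P ≤ p →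
    ∀ (A B : Finset (ZMod p)) (F : Finset (Finset (M2 p) × Finset (ZMod p) × ℕ)),
      (p : ℝ) ^ (1 / 2 - τ) ≤ #B →
      (∀ q ∈ F, (∀ φ ∈ q.1, φ.det ≠ 0) ∧
        (∀ φ ∈ q.1, ∀ ψ ∈ q.1, ∀ c : ZMod p, ψ = c • φ → ψ = φ) ∧
        (p : ℝ) ^ δ ≤ #q.1 ∧ (p : ℝ) ^ δ ≤ #q.2.1 ∧ 1 ≤ q.2.2 ∧
        ∀ r₀ r₁ : M2 p, NonSc r₁ →
          (p : ℝ) ^ (-δ) * #q.1 < #(q.1.filter fun φ => φ * r₀ = r₁ * φ) →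
          (p : ℝ) ^ (1 / 2 + δ) * ET r₁ (A.filter fun a => q.2.2 ≤ rp q.1 q.2.1 a) ≤
            ((#q.1 : ℝ) * #q.2.1 / q.2.2) ^ 4) →
      (∀ a ∈ A, ∃ q ∈ F, q.2.2 ≤ rp q.1 q.2.1 a) →
        ∀ χ : MulChar (ZMod p) ℂ, χ ≠ 1 →
          NB χ A B ((p : ℝ) ^ (-τ) *
            Real.sqrt ((∑ q ∈ F, (#q.1 : ℝ) * #q.2.1 / q.2.2) * #B))

end MPcb27.PH
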